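import Mathlib

namespace Pool.Agent.H28.Bogatyi

/-- the configuration `A₁` : three equally spaced points of a great circle, and `n` vectors of
an orthonormal basis orthogonal to them -/
noncomputable def av (n : ℕ) (k : Fin (n + 3)) : Fin (n + 3) → ℝ :=
  if k = 0 then Pi.single 0 1
  else if k = 1 then
    (-(1 / 2 : ℝ)) • Pi.single 0 1 + (√3 / 2 : ℝ) • Pi.single 1 1
  else if k = 2 then
    (-(1 / 2 : ℝ)) • Pi.single 0 1 + (-(√3 / 2) : ℝ) • Pi.single 1 1
  else Pi.single k 1

lemma key3 (x y c : ℝ) (hc : 0 ≤ c) (h1 : c ≤ |x|) (h2 : c ≤ |-(1/2) * x + √3/2 * y|)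
    (h3 : c ≤ |-(1/2) * x + (-(√3/2)) * y|) : 4 * c ^ 2 ≤ x ^ 2 + y ^ 2 := by
  set p := -(1/2) * x + √3/2 * y with hp
  set q := -(1/2) * x + (-(√3/2)) * y with hq
  have hs : x = -(p + q) := by rw [hp, hq]; ring
  have h3' : √3 ^ 2 = 3 := Real.sq_sqrt (by norm_num)
  have hsum : x ^ 2 + p ^ 2 + q ^ 2 = 3 / 2 * (x ^ 2 + y ^ 2) := by
    rw [hp, hq]; nlinarith [h3']
  have hx2 : c ^ 2 ≤ x ^ 2 := by nlinarith [sq_abs x, abs_nonneg x]
  have hp2 : c ^ 2 ≤ p ^ 2 := by nlinarith [sq_abs p, abs_nonneg p]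
  have hq2 : c ^ 2 ≤ q ^ 2 := by nlinarith [sq_abs q, abs_nonneg q]
  have hmain : 6 * c ^ 2 ≤ x ^ 2 + p ^ 2 + q ^ 2 := by
    rcases le_total 0 p with hp0 | hp0 <;> rcases le_total 0 q with hq0 | hq0
    · -- p, q ≥ 0
      have a1 : c ≤ p := by rwa [abs_of_nonneg hp0] at h2
      have a2 : c ≤ q := by rwa [abs_of_nonneg hq0] at h3
      have : 4 * c ^ 2 ≤ x ^ 2 := by rw [hs]; nlinarith
      linarith
    · rcases le_total 0 x with hx0 | hx0
      · -- p ≥ 0, x ≥ 0, q ≤ 0
        have a1 : c ≤ p := by rwa [abs_of_nonneg hp0] at h2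
        have a2 : c ≤ x := by rwa [abs_of_nonneg hx0] at h1
        have hq' : q = -(x + p) := by rw [hs]; ring
        have : 4 * c ^ 2 ≤ q ^ 2 := by rw [hq']; nlinarith
        linarith
      · have a1 : c ≤ -q := by rwa [abs_of_nonpos hq0] at h3
        have a2 : c ≤ -x := by rwa [abs_of_nonpos hx0] at h1
        have hp' : p = -(x + q) := by rw [hs]; ring
        have : 4 * c ^ 2 ≤ p ^ 2 := by rw [hp']; nlinarith
        linarith
    · rcases le_total 0 x with hx0 | hx0
      · have a1 : c ≤ q := by rwa [abs_of_nonneg hq0] at h3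
        have a2 : c ≤ x := by rwa [abs_of_nonneg hx0] at h1
        have hp' : p = -(x + q) := by rw [hs]; ring
        have : 4 * c ^ 2 ≤ p ^ 2 := by rw [hp']; nlinarith
        linarith
      · have a1 : c ≤ -p := by rwa [abs_of_nonpos hp0] at h2
        have a2 : c ≤ -x := by rwa [abs_of_nonpos hx0] at h1
        have hq' : q = -(x + p) := by rw [hs]; ring
        have : 4 * c ^ 2 ≤ q ^ 2 := by rw [hq']; nlinarith
        linarith
    · have a1 : c ≤ -p := by rwa [abs_of_nonpos hp0] at h2
      have a2 : c ≤ -q := by rwa [abs_of_nonpos hq0] at h3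
      have : 4 * c ^ 2 ≤ x ^ 2 := by rw [hs]; nlinarith
      linarith
  linarith

lemma ss_ne_one (n : ℕ) (x : Fin (n + 1)) : (x.succ.succ : Fin (n + 3)) ≠ 1 := fun h => by
  have := congrArg Fin.val h
  simp at this

lemma av_zero (n : ℕ) : av n 0 = Pi.single 0 1 := by simp [av]
lemma av_one (n : ℕ) : av n 1 =
    (-(1 / 2 : ℝ)) • Pi.single 0 1 + (√3 / 2 : ℝ) • Pi.single 1 1 := by
  simp [av]
lemma two_ne_zero' (n : ℕ) : (2 : Fin (n + 3)) ≠ 0 := by
  intro h
  have := congrArg Fin.val h
  rw [show ((2 : Fin (n + 3)) : ℕ) = 2 from rfl] at this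
  simp at this
lemma two_ne_one' (n : ℕ) : (2 : Fin (n + 3)) ≠ 1 := by
  intro h
  have := congrArg Fin.val h
  rw [show ((2 : Fin (n + 3)) : ℕ) = 2 from rfl] at this
  simp at this
lemma av_two (n : ℕ) : av n 2 =
    (-(1 / 2 : ℝ)) • Pi.single 0 1 + (-(√3 / 2) : ℝ) • Pi.single 1 1 := by
  unfold av
  rw [if_neg (two_ne_zero' n), if_neg (two_ne_one' n), if_pos rfl]
lemma av_other (n : ℕ) (k : Fin (n + 3)) (h0 : k ≠ 0) (h1 : k ≠ 1) (h2 : k ≠ 2) :
    av n k = Pi.single k 1 := by
  unfold av
  rw [if_neg h0, if_neg h1, if_neg h2]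

lemma sum_single_sq (n : ℕ) (k : Fin (n + 3)) :
    ∑ i, ((Pi.single k 1 : Fin (n + 3) → ℝ) i) ^ 2 = 1 := by
  rw [Finset.sum_eq_single k]
  · simp
  · intro b _ hb
    simp [hb]
  · simp

lemma av_norm (n : ℕ) (k : Fin (n + 3)) : ∑ i, (av n k i) ^ 2 = 1 := by
  have h3' : √3 ^ 2 = 3 := Real.sq_sqrt (by norm_num)
  have oz : (1 : Fin (n + 3)) ≠ 0 := by simp
  unfold av
  split_ifs with h0 h1 h2
  · exact sum_single_sq n 0
  · rw [Fin.sum_univ_succ, Fin.sum_univ_succ]
    simp [Fin.succ_ne_zero, ss_ne_one]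
    nlinarith [h3']
  · rw [Fin.sum_univ_succ, Fin.sum_univ_succ]
    simp [Fin.succ_ne_zero, ss_ne_one]
    nlinarith [h3']
  · exact sum_single_sq n k

lemma av_injective (n : ℕ) : Function.Injective (av n) := by
  have h30 : (0 : ℝ) < √3 := Real.sqrt_pos.mpr (by norm_num)
  have tz2 := two_ne_zero' n
  have to2 := two_ne_one' n
  have oz : (1 : Fin (n + 3)) ≠ 0 := by simp
  have other : ∀ k : Fin (n + 3), k ≠ 0 → k ≠ 1 → k ≠ 2 →
      (av n k) 0 = 0 ∧ (av n k) 1 = 0 := by
    intro k h0 h1 h2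
    rw [av_other n k h0 h1 h2]
    simp [h0.symm, h1.symm]
  have c00 : (av n 0) 0 = 1 := by simp [av_zero]
  have c01 : (av n 0) 1 = 0 := by simp [av_zero]
  have c10 : (av n 1) 0 = -(1/2) := by simp [av_one]
  have c11 : (av n 1) 1 = √3/2 := by simp [av_one]
  have c20 : (av n 2) 0 = -(1/2) := by simp [av_two]
  have c21 : (av n 2) 1 = -(√3/2) := by simp [av_two]
  intro j k h
  have c0 : (av n j) 0 = (av n k) 0 := by rw [h]
  have c1 : (av n j) 1 = (av n k) 1 := by rw [h]
  by_cases hj0 : j = 0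
  · by_cases hk0 : k = 0
    · rw [hj0, hk0]
    by_cases hk1 : k = 1
    · rw [hj0, hk1, c00, c10] at c0; linarith
    by_cases hk2 : k = 2
    · rw [hj0, hk2, c00, c20] at c0; linarith
    · rw [hj0, c00, (other k hk0 hk1 hk2).1] at c0; linarith
  by_cases hj1 : j = 1
  · by_cases hk0 : k = 0
    · rw [hj1, hk0, c00, c10] at c0; linarith
    by_cases hk1 : k = 1
    · rw [hj1, hk1]
    by_cases hk2 : k = 2
    · rw [hj1, hk2, c11, c21] at c1; linarith
    · rw [hj1, c10, (other k hk0 hk1 hk2).1] at c0; linarith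
  by_cases hj2 : j = 2
  · by_cases hk0 : k = 0
    · rw [hj2, hk0, c00, c20] at c0; linarith
    by_cases hk1 : k = 1
    · rw [hj2, hk1, c11, c21] at c1; linarith
    by_cases hk2 : k = 2
    · rw [hj2, hk2]
    · rw [hj2, c20, (other k hk0 hk1 hk2).1] at c0; linarith
  · by_cases hk0 : k = 0
    · rw [hk0, c00, (other j hj0 hj1 hj2).1] at c0; linarith
    by_cases hk1 : k = 1
    · rw [hk1, c10, (other j hj0 hj1 hj2).1] at c0; linarith
    by_cases hk2 : k = 2
    · rw [hk2, c20, (other j hj0 hj1 hj2).1] at c0; linarith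
    · rw [av_other n j hj0 hj1 hj2, av_other n k hk0 hk1 hk2] at h
      by_contra hne
      have := congrFun h j
      simp [hne] at this

/-- the main construction, in dimension `d = n + 2` -/
theorem main (n : ℕ) : ∃ F : Fin 2 → Set (Fin (n + 2 + 1) → ℝ),
    (∀ i, IsClosed (F i)) ∧ ⋃ i, F i = {x | ∑ k, x k ^ 2 = 1} ∧
    ∀ i, ∃ A : Finset (Fin (n + 2 + 1) → ℝ),
      (∀ a ∈ A, ∑ k, a k ^ 2 = 1) ∧ A.card = n + 2 + 1 ∧
      ∀ R ∈ Matrix.specialOrthogonalGroup (Fin (n + 2 + 1)) ℝ,
        ¬ ∀ a ∈ A, R.mulVec a ∈ F i := by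
  classical
  -- the constant `c`, `1/(n+4) < c^2 < 1/(n+3)`
  obtain ⟨t, ht1, ht2⟩ : ∃ t : ℝ, 1 / ((n : ℝ) + 4) < t ∧ t < 1 / ((n : ℝ) + 3) := by
    apply exists_between
    apply one_div_lt_one_div_of_lt <;> linarith [(Nat.cast_nonneg n : (0 : ℝ) ≤ n)]
  have hn : (0 : ℝ) ≤ n := Nat.cast_nonneg n
  have ht0 : 0 < t := lt_trans (by positivity) ht1
  have hc2 : (√t) ^ 2 = t := Real.sq_sqrt ht0.le
  have hc0 : 0 ≤ √t := Real.sqrt_nonneg t
  set c := √t with hc
  have h1 : 1 < (n + 4) * c ^ 2 := by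
    rw [hc2]
    rw [div_lt_iff₀ (by linarith)] at ht1
    linarith
  have h2 : (n + 3) * c ^ 2 < 1 := by
    rw [hc2]
    rw [lt_div_iff₀ (by linarith)] at ht2
    linarith
  let F0 : Set (Fin (n + 2 + 1) → ℝ) := {x | ∑ k, x k ^ 2 = 1 ∧ c ≤ |x 0|}
  let F1 : Set (Fin (n + 2 + 1) → ℝ) := {x | ∑ k, x k ^ 2 = 1 ∧ |x 0| ≤ c}
  have hcont : Continuous fun x : Fin (n + 2 + 1) → ℝ => |x 0| := by fun_prop
  have hcont2 : Continuous fun x : Fin (n + 2 + 1) → ℝ => ∑ k, x k ^ 2 := by fun_prop
  -- every rotation moves the coordinate functional to the inner product with a unit vector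
  have hu : ∀ R ∈ Matrix.specialOrthogonalGroup (Fin (n + 2 + 1)) ℝ,
      ∃ u : Fin (n + 2 + 1) → ℝ, (∑ k, (u k) ^ 2 = 1) ∧
        ∀ a, (R.mulVec a) 0 = ∑ k, u k * a k := by
    intro R hR
    refine ⟨R 0, ?_, ?_⟩
    · have h := (Matrix.mem_orthogonalGroup_iff _ _).1
        (Matrix.mem_specialOrthogonalGroup_iff.1 hR).1
      have h00 := congrFun (congrFun h 0) 0
      rw [Matrix.mul_apply] at h00
      simp [Matrix.star_apply] at h00
      rw [← h00]
      apply Finset.sum_congr rfl
      intro k _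
      ring
    · intro a
      rfl
  refine ⟨![F0, F1], ?_, ?_, ?_⟩
  · intro i
    fin_cases i
    · exact (isClosed_eq hcont2 continuous_const).inter (isClosed_le continuous_const hcont)
    · exact (isClosed_eq hcont2 continuous_const).inter (isClosed_le hcont continuous_const)
  · ext x
    rw [Set.mem_iUnion]
    constructor
    · rintro ⟨i, hi⟩
      fin_cases i
      · exact hi.1
      · exact hi.1
    · intro hx
      rcases le_total c |x 0| with h | h
      · exact ⟨0, hx, h⟩
      · exact ⟨1, hx, h⟩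
  · intro i
    fin_cases i
    · -- F0 misses `av`
      refine ⟨Finset.univ.image (av n), ?_, ?_, ?_⟩
      · intro x hx
        simp only [Finset.mem_image, Finset.mem_univ, true_and] at hx
        obtain ⟨k, rfl⟩ := hx
        exact av_norm n k
      · rw [Finset.card_image_of_injective _ (av_injective n)]
        simp
      · intro R hR hρ
        obtain ⟨u, hu1, hu2⟩ := hu R hR
        have hk : ∀ k : Fin (n + 3), c ≤ |∑ j, u j * (av n k) j| := by
          intro k
          have : R.mulVec (av n k) ∈ F0 := hρ (av n k) (by simp)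
          rw [← hu2]
          exact this.2
        have hsum : ∀ k : Fin (n + 3), ∑ j, u j * (Pi.single k (1 : ℝ) : Fin (n + 3) → ℝ) j = u k := by
          intro k
          simp [Pi.single_apply]
        have k0 : c ≤ |u 0| := by
          have := hk 0
          rw [av_zero, hsum] at this
          exact this
        have k1 : c ≤ |-(1/2) * u 0 + √3/2 * u 1| := by
          have := hk 1
          rw [av_one] at this
          have e : ∑ j, u j * ((-(1 / 2 : ℝ)) • (Pi.single 0 1 : Fin (n + 3) → ℝ) +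
              (√3 / 2 : ℝ) • (Pi.single 1 1 : Fin (n + 3) → ℝ) : Fin (n + 3) → ℝ) j = -(1/2) * u 0 + √3/2 * u 1 := by
            rw [← hsum 0, ← hsum 1, Finset.mul_sum, Finset.mul_sum, ← Finset.sum_add_distrib]
            apply Finset.sum_congr rfl
            intro j _
            simp only [Pi.add_apply, Pi.smul_apply, smul_eq_mul]
            ring
          rwa [e] at this
        have k2 : c ≤ |-(1/2) * u 0 + (-(√3/2)) * u 1| := by
          have := hk 2
          rw [av_two] at this
          have e : ∑ j, u j * ((-(1 / 2 : ℝ)) • (Pi.single 0 1 : Fin (n + 3) → ℝ) +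
              (-(√3 / 2) : ℝ) • (Pi.single 1 1 : Fin (n + 3) → ℝ) : Fin (n + 3) → ℝ) j = -(1/2) * u 0 + (-(√3/2)) * u 1 := by
            rw [← hsum 0, ← hsum 1, Finset.mul_sum, Finset.mul_sum, ← Finset.sum_add_distrib]
            apply Finset.sum_congr rfl
            intro j _
            simp only [Pi.add_apply, Pi.smul_apply, smul_eq_mul]
            ring
          rwa [e] at this
        have k3 : ∀ i : Fin n, c ≤ |u i.succ.succ.succ| := by
          intro i
          have := hk i.succ.succ.succ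
          rw [av_other] at this
          · rwa [hsum] at this
          · exact Fin.succ_ne_zero _
          · exact ss_ne_one n _
          · intro h
            have := congrArg Fin.val h
            rw [show ((2 : Fin (n + 3)) : ℕ) = 2 from rfl] at this
            simp at this
        have hm := key3 (u 0) (u 1) c hc0 k0 k1 k2
        have hs : (n : ℝ) * c ^ 2 ≤ ∑ i : Fin n, (u i.succ.succ.succ) ^ 2 := by
          have : ∑ i : Fin n, c ^ 2 ≤ ∑ i : Fin n, (u i.succ.succ.succ) ^ 2 := by
            apply Finset.sum_le_sum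
            intro i _
            have := k3 i
            nlinarith [sq_abs (u i.succ.succ.succ), abs_nonneg (u i.succ.succ.succ)]
          simpa using this
        rw [Fin.sum_univ_succ, Fin.sum_univ_succ, Fin.sum_univ_succ] at hu1
        have e1 : u (Fin.succ 0) = u 1 := rfl
        rw [e1] at hu1
        nlinarith [sq_nonneg (u (Fin.succ (Fin.succ 0)))]
    · -- F1 misses the orthonormal basis
      refine ⟨Finset.univ.image (fun k => Pi.single k (1 : ℝ)), ?_, ?_, ?_⟩
      · intro x hx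
        simp only [Finset.mem_image, Finset.mem_univ, true_and] at hx
        obtain ⟨k, rfl⟩ := hx
        exact sum_single_sq n k
      · rw [Finset.card_image_of_injective]
        · simp
        · intro j k h
          by_contra hne
          have := congrFun h j
          simp [hne] at this
      · intro R hR hρ
        obtain ⟨u, hu1, hu2⟩ := hu R hR
        have hk : ∀ k : Fin (n + 3), |u k| ≤ c := by
          intro k
          have : R.mulVec (Pi.single k (1 : ℝ)) ∈ F1 := hρ _ (by simp)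
          have h := this.2
          rw [hu2] at h
          simpa [Pi.single_apply] using h
        have : ∑ k : Fin (n + 3), (u k) ^ 2 ≤ ∑ k : Fin (n + 3), c ^ 2 := by
          apply Finset.sum_le_sum
          intro k _
          have := hk k
          nlinarith [sq_abs (u k), abs_nonneg (u k)]
        rw [hu1] at this
        simp at this
        linarith

end Pool.Agent.H28.Bogatyi
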