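import Mathlib

set_option autoImplicit false

namespace Pool.Agent.H28.Chein

open FreeGroup (of)
open scoped commutatorElement

variable {α : Type} [DecidableEq α]

/-- substitution `x_i ↦ w`, other generators fixed -/
def sub (i : α) (w : FreeGroup α) : FreeGroup α →* FreeGroup α :=
  FreeGroup.lift (fun m => if m = i then w else FreeGroup.of m)

@[simp] lemma sub_same (i : α) (w : FreeGroup α) : sub i w (of i) = w := by simp [sub]
lemma sub_ne {i m : α} (h : m ≠ i) (w : FreeGroup α) : sub i w (of m) = of m := by simp [sub, h]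

def mkA (i : α) (w w' : FreeGroup α) (h1 : sub i w w' = of i) (h2 : sub i w' w = of i) :
    MulAut (FreeGroup α) :=
  MonoidHom.toMulEquiv (sub i w) (sub i w')
    (by
      apply FreeGroup.ext_hom
      intro m
      by_cases hm : m = i
      · subst hm; simpa using h2
      · simp [sub_ne hm])
    (by
      apply FreeGroup.ext_hom
      intro m
      by_cases hm : m = i
      · subst hm; simpa using h1
      · simp [sub_ne hm])

lemma mkA_apply (i : α) (w w' : FreeGroup α) (h1 h2) (g : FreeGroup α) :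
    mkA i w w' h1 h2 g = sub i w g := rfl
lemma mkA_inv_apply (i : α) (w w' : FreeGroup α) (h1 h2) (g : FreeGroup α) :
    (mkA i w w' h1 h2)⁻¹ g = sub i w' g := rfl

lemma aut_ext {φ ψ : MulAut (FreeGroup α)} (h : ∀ m, φ (of m) = ψ (of m)) : φ = ψ := by
  apply MulEquiv.toMonoidHom_injective
  apply FreeGroup.ext_hom
  exact h

/-- `K_{ij}` -/
def K (i j : α) (h : j ≠ i) : MulAut (FreeGroup α) :=
  mkA i (of j * of i * (of j)⁻¹) ((of j)⁻¹ * of i * of j)
    (by simp only [map_mul, map_inv, sub_same, sub_ne h]; group)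
    (by simp only [map_mul, map_inv, sub_same, sub_ne h]; group)

/-- `K_{ijk}` -/
def D (i j k : α) (hj : j ≠ i) (hk : k ≠ i) : MulAut (FreeGroup α) :=
  mkA i (of i * ⁅of j, of k⁆) (of i * ⁅of j, of k⁆⁻¹)
    (by simp only [map_mul, map_inv, commutatorElement_def, sub_same, sub_ne hj, sub_ne hk]; group)
    (by simp only [map_mul, map_inv, commutatorElement_def, sub_same, sub_ne hj, sub_ne hk]; group)

/-- the transvection `x_j ↦ x_j x_i` -/
def Th (i j : α) (h : i ≠ j) : MulAut (FreeGroup α) :=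
  mkA j (of j * of i) (of j * (of i)⁻¹)
    (by simp only [map_mul, map_inv, sub_same, sub_ne h]; group)
    (by simp only [map_mul, map_inv, sub_same, sub_ne h]; group)

section
variable (i j k : α) (hij : i ≠ j) (hik : i ≠ k) (hjk : j ≠ k)
include hij hik hjk

-- the basic relation
lemma basic : ⁅D i j k hij.symm hik.symm, ⁅D i j k hij.symm hik.symm, K i k hik.symm⁆⁆ =
    ⁅⁅(K i j hij.symm)⁻¹, (K i k hik.symm)⁻¹⁆, ⁅D i j k hij.symm hik.symm, K i k hik.symm⁆⁆ := by
  apply aut_ext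
  intro m
  simp only [commutatorElement_def, MulAut.mul_apply, mul_inv_rev, inv_inv]
  by_cases hm : m = i
  · subst hm
    simp only [K, D, mkA_apply, mkA_inv_apply, map_mul, map_inv, commutatorElement_def, sub_same, sub_ne hij.symm,
      sub_ne hik.symm]
    group
  · simp only [K, D, mkA_apply, mkA_inv_apply, sub_ne hm]

lemma theta_K13 : Th i j hij * K i k hik.symm * (Th i j hij)⁻¹ =
    D j i k hij hjk.symm * K i k hik.symm := by
  apply aut_ext
  intro m
  simp only [MulAut.mul_apply]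
  by_cases hmi : m = i
  · subst hmi
    simp only [K, D, Th, mkA_apply, mkA_inv_apply, map_mul, map_inv, commutatorElement_def, sub_same,
      sub_ne hij.symm, sub_ne hik.symm, sub_ne hij, sub_ne hjk.symm]
  · by_cases hmj : m = j
    · subst hmj
      simp only [K, D, Th, mkA_apply, mkA_inv_apply, map_mul, map_inv, commutatorElement_def, sub_same,
        sub_ne hij.symm, sub_ne hik.symm, sub_ne hij, sub_ne hjk.symm]
      group
    · simp only [K, D, Th, mkA_apply, mkA_inv_apply, sub_ne hmi, sub_ne hmj]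

lemma theta_K12 : Th i j hij * K i j hij.symm * (Th i j hij)⁻¹ =
    K i j hij.symm * K j i hij := by
  apply aut_ext
  intro m
  simp only [MulAut.mul_apply]
  by_cases hmi : m = i
  · subst hmi
    simp only [K, D, Th, mkA_apply, mkA_inv_apply, map_mul, map_inv, commutatorElement_def, sub_same,
      sub_ne hij.symm, sub_ne hik.symm, sub_ne hij, sub_ne hjk.symm]
    group
  · by_cases hmj : m = j
    · subst hmj
      simp only [K, D, Th, mkA_apply, mkA_inv_apply, map_mul, map_inv, commutatorElement_def, sub_same,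
        sub_ne hij.symm, sub_ne hik.symm, sub_ne hij, sub_ne hjk.symm]
      group
    · simp only [K, D, Th, mkA_apply, mkA_inv_apply, sub_ne hmi, sub_ne hmj]

lemma theta_a : Th i j hij * D i j k hij.symm hik.symm * (Th i j hij)⁻¹ =
    (K j i hij)⁻¹ * (K i j hij.symm)⁻¹ * K j k hjk.symm * (D j i k hij hjk.symm)⁻¹ *
      K i j hij.symm * D i j k hij.symm hik.symm * (K i k hik.symm)⁻¹ * K j i hij := by
  apply aut_ext
  intro m
  simp only [MulAut.mul_apply]
  by_cases hmi : m = i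
  · subst hmi
    simp only [K, D, Th, mkA_apply, mkA_inv_apply, map_mul, map_inv, commutatorElement_def, sub_same,
      sub_ne hij.symm, sub_ne hik.symm, sub_ne hij, sub_ne hjk.symm]
    group
  · by_cases hmj : m = j
    · subst hmj
      simp only [K, D, Th, mkA_apply, mkA_inv_apply, map_mul, map_inv, commutatorElement_def, sub_same,
        sub_ne hij.symm, sub_ne hik.symm, sub_ne hij, sub_ne hjk.symm]
      group
    · simp only [K, D, Th, mkA_apply, mkA_inv_apply, sub_ne hmi, sub_ne hmj]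

end

section
variable (i j k : α) (hij : i ≠ j) (hik : i ≠ k) (hjk : j ≠ k)
include hij hik hjk

/-- the relation, conjugated by the transvection -/
lemma key_relation :
    let K12 := K i j hij.symm
    let K21 := K j i hij
    let K13 := K i k hik.symm
    let K23 := K j k hjk.symm
    let a := D i j k hij.symm hik.symm
    let b := D j i k hij hjk.symm
    let at' := K21⁻¹ * K12⁻¹ * K23 * b⁻¹ * K12 * a * K13⁻¹ * K21
    ⁅at', ⁅at', b * K13⁆⁆ = ⁅⁅(K12 * K21)⁻¹, (b * K13)⁻¹⁆, ⁅at', b * K13⁆⁆ := by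
  intro K12 K21 K13 K23 a b at'
  have h := congrArg (MulAut.conj (Th i j hij)) (basic i j k hij hik hjk)
  simp only [map_commutatorElement, map_inv, MulAut.conj_apply] at h
  rw [theta_a i j k hij hik hjk, theta_K13 i j k hij hik hjk, theta_K12 i j k hij hik hjk] at h
  exact h

end

lemma K_apply (i j : α) (h : j ≠ i) : K i j h (of i) = of j * of i * (of j)⁻¹ := by
  simp [K, mkA_apply]
lemma K_apply_ne (i j : α) (h : j ≠ i) (m : α) (hm : m ≠ i) : K i j h (of m) = of m := by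
  simp [K, mkA_apply, sub_ne hm]
lemma D_apply (i j k : α) (hj : j ≠ i) (hk : k ≠ i) :
    D i j k hj hk (of i) = of i * (of j * of k * (of j)⁻¹ * (of k)⁻¹) := by
  simp [D, mkA_apply, commutatorElement_def]
lemma D_apply_ne (i j k : α) (hj : j ≠ i) (hk : k ≠ i) (m : α) (hm : m ≠ i) :
    D i j k hj hk (of m) = of m := by
  simp [D, mkA_apply, sub_ne hm]

/-! ### Nontriviality, by acting on triples of elements of a finite group -/

section
variable {S : Type} [Group S] (i j k : α) (hij : i ≠ j) (hik : i ≠ k) (hjk : j ≠ k)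

/-- the homomorphism sending `x_i, x_j, x_k` to `p, q, r` and the other generators to `1` -/
def ev (p q r : S) : FreeGroup α →* S :=
  FreeGroup.lift (fun m => if m = i then p else if m = j then q else if m = k then r else 1)

include hij hik hjk

lemma ev_i (p q r : S) : ev i j k p q r (of i) = p := by simp [ev]
lemma ev_j (p q r : S) : ev i j k p q r (of j) = q := by simp [ev, hij.symm]
lemma ev_k (p q r : S) : ev i j k p q r (of k) = r := by simp [ev, hik.symm, hjk.symm]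

lemma ev_a (p q r : S) (x : FreeGroup α) :
    ev i j k p q r (D i j k hij.symm hik.symm x) =
      ev i j k (p * (q * r * q⁻¹ * r⁻¹)) q r x := by
  have : (ev i j k p q r).comp (D i j k hij.symm hik.symm).toMonoidHom =
      ev i j k (p * (q * r * q⁻¹ * r⁻¹)) q r := by
    apply FreeGroup.ext_hom
    intro m
    by_cases hmi : m = i
    · subst hmi
      change ev m j k p q r (sub m _ (of m)) = _
      rw [sub_same, ev_i m j k hij hik hjk, map_mul, ev_i m j k hij hik hjk, commutatorElement_def]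
      simp only [map_mul, map_inv, ev_j m j k hij hik hjk, ev_k m j k hij hik hjk]
    · change ev i j k p q r (sub i _ (of m)) = _
      rw [sub_ne hmi]
      simp [ev, hmi]
  exact DFunLike.congr_fun this x

lemma ev_a_inv (p q r : S) (x : FreeGroup α) :
    ev i j k p q r ((D i j k hij.symm hik.symm)⁻¹ x) =
      ev i j k (p * (q * r * q⁻¹ * r⁻¹)⁻¹) q r x := by
  have h := ev_a i j k hij hik hjk (p * (q * r * q⁻¹ * r⁻¹)⁻¹) q r ((D i j k hij.symm hik.symm)⁻¹ x)
  rw [MulAut.apply_inv_self] at h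
  rw [h]
  congr 1
  group

lemma ev_b (p q r : S) (x : FreeGroup α) :
    ev i j k p q r (D j i k hij hjk.symm x) =
      ev i j k p (q * (p * r * p⁻¹ * r⁻¹)) r x := by
  have : (ev i j k p q r).comp (D j i k hij hjk.symm).toMonoidHom =
      ev i j k p (q * (p * r * p⁻¹ * r⁻¹)) r := by
    apply FreeGroup.ext_hom
    intro m
    by_cases hmj : m = j
    · subst hmj
      change ev i m k p q r (sub m _ (of m)) = _
      rw [sub_same, ev_j i m k hij hik hjk, map_mul, ev_j i m k hij hik hjk, commutatorElement_def]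
      simp only [map_mul, map_inv, ev_i i m k hij hik hjk, ev_k i m k hij hik hjk]
    · change ev i j k p q r (sub j _ (of m)) = _
      rw [sub_ne hmj]
      simp [ev, hmj]
  exact DFunLike.congr_fun this x

lemma ev_b_inv (p q r : S) (x : FreeGroup α) :
    ev i j k p q r ((D j i k hij hjk.symm)⁻¹ x) =
      ev i j k p (q * (p * r * p⁻¹ * r⁻¹)⁻¹) r x := by
  have h := ev_b i j k hij hik hjk p (q * (p * r * p⁻¹ * r⁻¹)⁻¹) r ((D j i k hij hjk.symm)⁻¹ x)
  rw [MulAut.apply_inv_self] at h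
  rw [h]
  congr 1
  group

lemma nontriv : ⁅(D j i k hij hjk.symm)⁻¹ * D i j k hij.symm hik.symm,
    ⁅(D j i k hij hjk.symm)⁻¹ * D i j k hij.symm hik.symm, D j i k hij hjk.symm⁆⁆ ≠ 1 := by
  intro h
  have h1 : ev i j k (1 : Equiv.Perm (Fin 3)) (Equiv.swap 1 2) (Equiv.swap 0 1)
      ((⁅(D j i k hij hjk.symm)⁻¹ * D i j k hij.symm hik.symm,
        ⁅(D j i k hij hjk.symm)⁻¹ * D i j k hij.symm hik.symm, D j i k hij hjk.symm⁆⁆ :
          MulAut (FreeGroup α)) (of j)) = Equiv.swap 1 2 := by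
    rw [h]
    exact ev_j i j k hij hik hjk _ _ _
  have h2 : ⁅(D j i k hij hjk.symm)⁻¹ * D i j k hij.symm hik.symm,
        ⁅(D j i k hij hjk.symm)⁻¹ * D i j k hij.symm hik.symm, D j i k hij hjk.symm⁆⁆ =
      (D j i k hij hjk.symm)⁻¹ * D i j k hij.symm hik.symm * (D j i k hij hjk.symm)⁻¹ *
      D i j k hij.symm hik.symm * D j i k hij hjk.symm * (D i j k hij.symm hik.symm)⁻¹ *
      (D i j k hij.symm hik.symm)⁻¹ * D j i k hij hjk.symm * D i j k hij.symm hik.symm *
      (D j i k hij hjk.symm)⁻¹ * (D i j k hij.symm hik.symm)⁻¹ * D j i k hij hjk.symm := by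
    simp only [commutatorElement_def]
    group
  rw [h2] at h1
  have h3 : ev i j k (1 : Equiv.Perm (Fin 3)) (Equiv.swap 1 2) (Equiv.swap 0 1)
      (((D j i k hij hjk.symm)⁻¹ * D i j k hij.symm hik.symm * (D j i k hij hjk.symm)⁻¹ *
      D i j k hij.symm hik.symm * D j i k hij hjk.symm * (D i j k hij.symm hik.symm)⁻¹ *
      (D i j k hij.symm hik.symm)⁻¹ * D j i k hij hjk.symm * D i j k hij.symm hik.symm *
      (D j i k hij hjk.symm)⁻¹ * (D i j k hij.symm hik.symm)⁻¹ * D j i k hij hjk.symm :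
          MulAut (FreeGroup α)) (of j)) = Equiv.swap 0 2 := by
    simp only [MulAut.mul_apply]
    rw [ev_b_inv i j k hij hik hjk (1) (Equiv.swap 1 2) (Equiv.swap 0 1)]
    rw [show (((Equiv.swap 1 2) * ((1) * (Equiv.swap 0 1) * (1)⁻¹ * (Equiv.swap 0 1)⁻¹)⁻¹ : Equiv.Perm (Fin 3))) = Equiv.swap 1 2 by decide]
    rw [ev_a i j k hij hik hjk (1) (Equiv.swap 1 2) (Equiv.swap 0 1)]
    rw [show (((1) * ((Equiv.swap 1 2) * (Equiv.swap 0 1) * (Equiv.swap 1 2)⁻¹ * (Equiv.swap 0 1)⁻¹) : Equiv.Perm (Fin 3))) = (Equiv.swap 0 1 * Equiv.swap 1 2) by decide]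
    rw [ev_b_inv i j k hij hik hjk ((Equiv.swap 0 1 * Equiv.swap 1 2)) (Equiv.swap 1 2) (Equiv.swap 0 1)]
    rw [show (((Equiv.swap 1 2) * (((Equiv.swap 0 1 * Equiv.swap 1 2)) * (Equiv.swap 0 1) * ((Equiv.swap 0 1 * Equiv.swap 1 2))⁻¹ * (Equiv.swap 0 1)⁻¹)⁻¹ : Equiv.Perm (Fin 3))) = Equiv.swap 0 2 by decide]
    rw [ev_a i j k hij hik hjk ((Equiv.swap 0 1 * Equiv.swap 1 2)) (Equiv.swap 0 2) (Equiv.swap 0 1)]
    rw [show ((((Equiv.swap 0 1 * Equiv.swap 1 2)) * ((Equiv.swap 0 2) * (Equiv.swap 0 1) * (Equiv.swap 0 2)⁻¹ * (Equiv.swap 0 1)⁻¹) : Equiv.Perm (Fin 3))) = 1 by decide]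
    rw [ev_b i j k hij hik hjk (1) (Equiv.swap 0 2) (Equiv.swap 0 1)]
    rw [show (((Equiv.swap 0 2) * ((1) * (Equiv.swap 0 1) * (1)⁻¹ * (Equiv.swap 0 1)⁻¹) : Equiv.Perm (Fin 3))) = Equiv.swap 0 2 by decide]
    rw [ev_a_inv i j k hij hik hjk (1) (Equiv.swap 0 2) (Equiv.swap 0 1)]
    rw [show (((1) * ((Equiv.swap 0 2) * (Equiv.swap 0 1) * (Equiv.swap 0 2)⁻¹ * (Equiv.swap 0 1)⁻¹)⁻¹ : Equiv.Perm (Fin 3))) = (Equiv.swap 0 1 * Equiv.swap 1 2) by decide]
    rw [ev_a_inv i j k hij hik hjk ((Equiv.swap 0 1 * Equiv.swap 1 2)) (Equiv.swap 0 2) (Equiv.swap 0 1)]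
    rw [show ((((Equiv.swap 0 1 * Equiv.swap 1 2)) * ((Equiv.swap 0 2) * (Equiv.swap 0 1) * (Equiv.swap 0 2)⁻¹ * (Equiv.swap 0 1)⁻¹)⁻¹ : Equiv.Perm (Fin 3))) = (Equiv.swap 1 2 * Equiv.swap 0 1) by decide]
    rw [ev_b i j k hij hik hjk ((Equiv.swap 1 2 * Equiv.swap 0 1)) (Equiv.swap 0 2) (Equiv.swap 0 1)]
    rw [show (((Equiv.swap 0 2) * (((Equiv.swap 1 2 * Equiv.swap 0 1)) * (Equiv.swap 0 1) * ((Equiv.swap 1 2 * Equiv.swap 0 1))⁻¹ * (Equiv.swap 0 1)⁻¹) : Equiv.Perm (Fin 3))) = Equiv.swap 0 1 by decide]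
    rw [ev_a i j k hij hik hjk ((Equiv.swap 1 2 * Equiv.swap 0 1)) (Equiv.swap 0 1) (Equiv.swap 0 1)]
    rw [show ((((Equiv.swap 1 2 * Equiv.swap 0 1)) * ((Equiv.swap 0 1) * (Equiv.swap 0 1) * (Equiv.swap 0 1)⁻¹ * (Equiv.swap 0 1)⁻¹) : Equiv.Perm (Fin 3))) = (Equiv.swap 1 2 * Equiv.swap 0 1) by decide]
    rw [ev_b_inv i j k hij hik hjk ((Equiv.swap 1 2 * Equiv.swap 0 1)) (Equiv.swap 0 1) (Equiv.swap 0 1)]
    rw [show (((Equiv.swap 0 1) * (((Equiv.swap 1 2 * Equiv.swap 0 1)) * (Equiv.swap 0 1) * ((Equiv.swap 1 2 * Equiv.swap 0 1))⁻¹ * (Equiv.swap 0 1)⁻¹)⁻¹ : Equiv.Perm (Fin 3))) = Equiv.swap 0 2 by decide]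
    rw [ev_a_inv i j k hij hik hjk ((Equiv.swap 1 2 * Equiv.swap 0 1)) (Equiv.swap 0 2) (Equiv.swap 0 1)]
    rw [show ((((Equiv.swap 1 2 * Equiv.swap 0 1)) * ((Equiv.swap 0 2) * (Equiv.swap 0 1) * (Equiv.swap 0 2)⁻¹ * (Equiv.swap 0 1)⁻¹)⁻¹ : Equiv.Perm (Fin 3))) = 1 by decide]
    rw [ev_b i j k hij hik hjk (1) (Equiv.swap 0 2) (Equiv.swap 0 1)]
    rw [show (((Equiv.swap 0 2) * ((1) * (Equiv.swap 0 1) * (1)⁻¹ * (Equiv.swap 0 1)⁻¹) : Equiv.Perm (Fin 3))) = Equiv.swap 0 2 by decide]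
    exact ev_j i j k hij hik hjk _ _ _
  rw [h3] at h1
  revert h1
  decide

end

end Pool.Agent.H28.Chein
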