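import Mathlib

namespace Pool.Agent.H28.CheinDefs

open FreeGroup (of)

/-- `IA(F(n))`: the automorphisms of the free group on `x_0, …, x_{n-1}` that act trivially on
the abelianization `F(n)/F(n)'`. -/
def IA (n : ℕ) : Subgroup (MulAut (FreeGroup (Fin n))) where
  carrier := {φ | ∀ g, Abelianization.of (φ g) = Abelianization.of g}
  mul_mem' := fun {_ b} ha hb g => (ha (b g)).trans (hb g)
  one_mem' := fun _ => rfl
  inv_mem' := fun {a} ha g => by
    have := ha (a⁻¹ g)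
    rw [MulAut.apply_inv_self] at this
    exact this.symm

/-- `φ = K_{ij}`: `x_i ↦ x_j x_i x_j⁻¹` and `x_m ↦ x_m` for `m ≠ i`. -/
def IsK {n : ℕ} (i j : Fin n) (φ : MulAut (FreeGroup (Fin n))) : Prop :=
  φ (of i) = of j * of i * (of j)⁻¹ ∧ ∀ m, m ≠ i → φ (of m) = of m

/-- `φ = K_{ijk}`: `x_i ↦ x_i [x_j, x_k]` and `x_m ↦ x_m` for `m ≠ i`. -/
def IsKK {n : ℕ} (i j k : Fin n) (φ : MulAut (FreeGroup (Fin n))) : Prop :=
  φ (of i) = of i * (of j * of k * (of j)⁻¹ * (of k)⁻¹) ∧ ∀ m, m ≠ i → φ (of m) = of m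

/-- `C(n)`: the subgroup of `IA(F(n))` generated by all `K_{ij}`, `i ≠ j`. -/
def C (n : ℕ) : Subgroup (IA n) :=
  Subgroup.closure {φ | ∃ i j : Fin n, i ≠ j ∧ IsK i j φ.1}

/-- `T(n)`: the subgroup of `IA(F(n))` generated by all `K_{ijk}`, `i ≠ j < k ≠ i`. -/
def T (n : ℕ) : Subgroup (IA n) :=
  Subgroup.closure {φ | ∃ i j k : Fin n, i ≠ j ∧ j < k ∧ k ≠ i ∧ IsKK i j k φ.1}

/-- The normal closure of `C(n)` in `IA(F(n))`. -/
def CBar (n : ℕ) : Subgroup (IA n) := Subgroup.normalClosure (C n : Set (IA n))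

/-- The commutator `[x, y] = x y x⁻¹ y⁻¹`. -/
def cm {G : Type} [Group G] (x y : G) : G := x * y * x⁻¹ * y⁻¹

end Pool.Agent.H28.CheinDefs
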