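import Mathlib
import Pool.Agent.H28.Chein
import Pool.Agent.H28.CheinDefs

namespace Pool.Agent.H28.CheinProof

open FreeGroup (of)
open Pool.Agent.H28.Chein Pool.Agent.H28.CheinDefs

theorem main (n : ℕ) (i j k : Fin n) (hij' : i < j) (hjk' : j < k) (a' b' : IA n)
    (ha' : IsKK i j k a'.1) (hb' : IsKK j i k b'.1) :
    cm (b'⁻¹ * a') (cm (b'⁻¹ * a') b') ∈ CBar n ⊓ T n ∧ cm (b'⁻¹ * a') (cm (b'⁻¹ * a') b') ≠ 1 := by
  -- membership in `IA`
  have memIA : ∀ φ : MulAut (FreeGroup (Fin n)),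
      (∀ m, Abelianization.of (φ (of m)) = Abelianization.of (of m)) → φ ∈ IA n := by
    intro φ h g
    have : (Abelianization.of).comp φ.toMonoidHom = Abelianization.of := by
      apply FreeGroup.ext_hom
      intro m
      exact h m
    exact DFunLike.congr_fun this g
  have memK : ∀ (i j : Fin n) (h : j ≠ i), K i j h ∈ IA n := by
    intro i j h
    apply memIA
    intro m
    by_cases hm : m = i
    · subst hm
      rw [K_apply]
      simp only [map_mul, map_inv]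
      rw [mul_comm (Abelianization.of (of j))]
      simp
    · rw [K_apply_ne _ _ _ _ hm]
  have memD : ∀ (i j k : Fin n) (hj : j ≠ i) (hk : k ≠ i), D i j k hj hk ∈ IA n := by
    intro i j k hj hk
    apply memIA
    intro m
    by_cases hm : m = i
    · subst hm
      rw [D_apply]
      simp only [map_mul, map_inv]
      rw [mul_comm (Abelianization.of (of j))]
      simp
    · rw [D_apply_ne _ _ _ _ _ _ hm]
  have hij : i ≠ j := hij'.ne
  have hjk : j ≠ k := hjk'.ne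
  have hik' : i < k := hij'.trans hjk'
  have hik : i ≠ k := hik'.ne
  let K12 : IA n := ⟨K i j hij.symm, memK _ _ _⟩
  let K21 : IA n := ⟨K j i hij, memK _ _ _⟩
  let K13 : IA n := ⟨K i k hik.symm, memK _ _ _⟩
  let K23 : IA n := ⟨K j k hjk.symm, memK _ _ _⟩
  let a : IA n := ⟨D i j k hij.symm hik.symm, memD _ _ _ _ _⟩
  let b : IA n := ⟨D j i k hij hjk.symm, memD _ _ _ _ _⟩
  have hC : ∀ (i j : Fin n) (h : j ≠ i), (⟨K i j h, memK _ _ _⟩ : IA n) ∈ CBar n := by
    intro i j h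
    apply Subgroup.subset_normalClosure
    apply Subgroup.subset_closure
    exact ⟨i, j, h.symm, K_apply i j h, K_apply_ne i j h⟩
  have haD : IsKK i j k a.1 :=
    ⟨D_apply i j k hij.symm hik.symm, D_apply_ne i j k hij.symm hik.symm⟩
  have hbD : IsKK j i k b.1 := ⟨D_apply j i k hij hjk.symm, D_apply_ne j i k hij hjk.symm⟩
  have haT : a ∈ T n := Subgroup.subset_closure ⟨i, j, k, hij, hjk', hik.symm, haD⟩
  have hbT : b ∈ T n := Subgroup.subset_closure ⟨j, i, k, hij.symm, hik', hjk.symm, hbD⟩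
  -- the relation inside `IA n`
  open scoped commutatorElement in
  have rel : ⁅K21⁻¹ * K12⁻¹ * K23 * b⁻¹ * K12 * a * K13⁻¹ * K21,
      ⁅K21⁻¹ * K12⁻¹ * K23 * b⁻¹ * K12 * a * K13⁻¹ * K21, b * K13⁆⁆ =
      ⁅⁅(K12 * K21)⁻¹, (b * K13)⁻¹⁆,
        ⁅K21⁻¹ * K12⁻¹ * K23 * b⁻¹ * K12 * a * K13⁻¹ * K21, b * K13⁆⁆ := by
    apply Subtype.ext
    exact key_relation i j k hij hik hjk
  -- pass to the quotient by `CBar n`
  have hnorm : (CBar n).Normal := Subgroup.normalClosure_normal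
  have q12 : (QuotientGroup.mk' (CBar n)) K12 = 1 := (QuotientGroup.eq_one_iff _).2 (hC _ _ _)
  have q21 : (QuotientGroup.mk' (CBar n)) K21 = 1 := (QuotientGroup.eq_one_iff _).2 (hC _ _ _)
  have q13 : (QuotientGroup.mk' (CBar n)) K13 = 1 := (QuotientGroup.eq_one_iff _).2 (hC _ _ _)
  have q23 : (QuotientGroup.mk' (CBar n)) K23 = 1 := (QuotientGroup.eq_one_iff _).2 (hC _ _ _)
  have hmain : (b⁻¹ * a) * ((b⁻¹ * a) * b * (b⁻¹ * a)⁻¹ * b⁻¹) * (b⁻¹ * a)⁻¹ *
      ((b⁻¹ * a) * b * (b⁻¹ * a)⁻¹ * b⁻¹)⁻¹ ∈ CBar n := by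
    rw [← QuotientGroup.eq_one_iff]
    change (QuotientGroup.mk' (CBar n)) _ = 1
    have h := congrArg (QuotientGroup.mk' (CBar n)) rel
    simp only [commutatorElement_def, map_mul, map_inv, q12, q21, q13, q23] at h
    simp only [map_mul, map_inv]
    simp only [mul_one, one_mul, inv_one] at h
    refine Eq.trans ?_ (h.trans ?_) <;> group
  have hT : (b⁻¹ * a) * ((b⁻¹ * a) * b * (b⁻¹ * a)⁻¹ * b⁻¹) * (b⁻¹ * a)⁻¹ *
      ((b⁻¹ * a) * b * (b⁻¹ * a)⁻¹ * b⁻¹)⁻¹ ∈ T n := by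
    have ht : b⁻¹ * a ∈ T n := mul_mem (inv_mem hbT) haT
    have h2 : (b⁻¹ * a) * b * (b⁻¹ * a)⁻¹ * b⁻¹ ∈ T n :=
      mul_mem (mul_mem (mul_mem ht hbT) (inv_mem ht)) (inv_mem hbT)
    exact mul_mem (mul_mem (mul_mem ht h2) (inv_mem ht)) (inv_mem h2)
  have hne : (b⁻¹ * a) * ((b⁻¹ * a) * b * (b⁻¹ * a)⁻¹ * b⁻¹) * (b⁻¹ * a)⁻¹ *
      ((b⁻¹ * a) * b * (b⁻¹ * a)⁻¹ * b⁻¹)⁻¹ ≠ 1 := by
    intro h
    apply nontriv i j k hij hik hjk
    have := congrArg Subtype.val h
    exact this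
  have ea : a' = a := by
    apply Subtype.ext
    apply aut_ext
    intro m
    by_cases hm : m = i
    · subst hm; rw [ha'.1, haD.1]
    · rw [ha'.2 m hm, haD.2 m hm]
  have eb : b' = b := by
    apply Subtype.ext
    apply aut_ext
    intro m
    by_cases hm : m = j
    · subst hm; rw [hb'.1, hbD.1]
    · rw [hb'.2 m hm, hbD.2 m hm]
  rw [ea, eb]
  exact ⟨⟨hmain, hT⟩, hne⟩

/-- existence of the automorphisms `K_{ijk}` -/
theorem exists_kk (n : ℕ) (i j k : Fin n) (hj : j ≠ i) (hk : k ≠ i) : ∃ a : IA n, IsKK i j k a.1 := by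
  refine ⟨⟨D i j k hj hk, ?_⟩, D_apply i j k hj hk, D_apply_ne i j k hj hk⟩
  intro g
  have : (Abelianization.of).comp (D i j k hj hk).toMonoidHom = Abelianization.of := by
    apply FreeGroup.ext_hom
    intro m
    change Abelianization.of (D i j k hj hk (of m)) = Abelianization.of (of m)
    by_cases hm : m = i
    · subst hm
      rw [D_apply]
      simp only [map_mul, map_inv]
      rw [mul_comm (Abelianization.of (of j))]
      simp
    · rw [D_apply_ne _ _ _ _ _ _ hm]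
  exact DFunLike.congr_fun this g

end Pool.Agent.H28.CheinProof
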