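import Mathlib

set_option autoImplicit false

/-! A 3-connected graph on 30 vertices (55 edges) obtained from the Petersen graph by replacing the
five outer vertices by a copy of `K₅` minus two adjacent edges. -/

namespace Pool.Agent.H28.CC

def nbs : List ℕ :=
  [56, 284, 33554458, 23, 15, 8519681, 3584, 18176, 1666, 1472, 960, 545259584, 229376, 1163264,
   106624, 94208, 61440, 536875040, 14680064, 74448896, 6823936, 6029312, 3932160, 264224,
   939524096, 469762052, 436731904, 385875968, 251658240, 16910336]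

def nb (k : ℕ) : ℕ := nbs.getD k 0

def adjB (a b : ℕ) : Bool := (nb a).testBit b

theorem adjB_symm : ∀ a b : Fin 30, adjB a b = true → adjB b a = true := by decide +kernel

theorem adjB_irrefl : ∀ a : Fin 30, adjB a a = false := by decide +kernel

/-- The graph. -/
def G : SimpleGraph (Fin 30) where
  Adj a b := adjB a b = true
  symm := ⟨fun a b h => adjB_symm a b h⟩
  loopless := ⟨fun a h => by have := adjB_irrefl a; rw [h] at this; exact absurd this (by decide)⟩

instance : DecidableRel G.Adj := fun a b => inferInstanceAs (Decidable (adjB a b = true))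

theorem adj_iff (a b : Fin 30) : G.Adj a b ↔ adjB a b = true := Iff.rfl

/-! ### 3-connectivity -/

def sweep (al : ℕ) (l : List ℕ) (m : ℕ) : ℕ :=
  l.foldl (fun acc k => if acc.testBit k then acc ||| (nb k &&& al) else acc) m

def sweeps (al : ℕ) (m : ℕ) : ℕ → ℕ
  | 0 => m
  | n + 1 => sweep al (List.range 30) (sweeps al m n)

theorem sweep_sound (R : ℕ → Prop) (al : ℕ)
    (hR : ∀ k j, R k → (nb k).testBit j = true → al.testBit j = true → R j)
    (l : List ℕ) : ∀ m : ℕ, (∀ j, m.testBit j = true → R j) →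
      ∀ j, (sweep al l m).testBit j = true → R j := by
  induction l with
  | nil => intro m hm j hj; exact hm j hj
  | cons k l ih =>
    intro m hm j hj
    unfold sweep at hj
    rw [List.foldl_cons] at hj
    refine ih _ ?_ j hj
    intro i hi
    split_ifs at hi with hk
    · rw [Nat.testBit_or, Bool.or_eq_true] at hi
      rcases hi with hi | hi
      · exact hm i hi
      · rw [Nat.testBit_and, Bool.and_eq_true] at hi
        exact hR k i (hm k hk) hi.1 hi.2
    · exact hm i hi

theorem sweeps_sound (R : ℕ → Prop) (al : ℕ)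
    (hR : ∀ k j, R k → (nb k).testBit j = true → al.testBit j = true → R j)
    (m : ℕ) (hm : ∀ j, m.testBit j = true → R j) (n : ℕ) :
      ∀ j, (sweeps al m n).testBit j = true → R j := by
  induction n with
  | zero => exact hm
  | succ n ih => exact sweep_sound R al hR _ _ ih

/-- allowed mask: everything except `u, v` (the value `30` stands for no vertex). -/
def al (u v : ℕ) : ℕ := (List.range 30).foldl (fun acc k => if k = u ∨ k = v then acc else
  acc ||| (1 <<< k)) 0

def rootOf (u v : ℕ) : ℕ :=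
  if u ≠ 0 ∧ v ≠ 0 then 0 else if u ≠ 1 ∧ v ≠ 1 then 1 else 2

theorem al_check : ∀ u : Fin 31, ∀ v : Fin 31, ∀ j : Fin 30,
    (al u v).testBit j = (decide (j.val ≠ u.val) && decide (j.val ≠ v.val)) := by
  decide +kernel

theorem al_lt : ∀ u : Fin 31, ∀ v : Fin 31, al u v < 2 ^ 30 := by
  decide +kernel

theorem sweeps_check : ∀ u : Fin 31, ∀ v : Fin 31, u.val ≤ v.val →
    sweeps (al u v) (1 <<< rootOf u v) 5 = al u v := by
  decide +kernel

theorem root_check : ∀ u : Fin 31, ∀ v : Fin 31,
    rootOf u v < 30 ∧ rootOf u v ≠ u.val ∧ rootOf u v ≠ v.val := by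
  decide +kernel

theorem conn_uv (S : Finset (Fin 30)) (u v : Fin 31) (huv : u.val ≤ v.val)
    (hS : ∀ j : Fin 30, j ∈ S ↔ (j.val = u.val ∨ j.val = v.val)) :
    (G.induce ((↑S : Set (Fin 30))ᶜ)).Connected := by
  have hr := root_check u v
  set r := rootOf u v with hrdef
  have hrS : (⟨r, hr.1⟩ : Fin 30) ∈ ((↑S : Set (Fin 30))ᶜ) := by
    rw [Set.mem_compl_iff, Finset.mem_coe, hS]
    push Not
    exact hr.2
  let R : ℕ → Prop := fun j => ∃ (h1 : j < 30) (h2 : (⟨j, h1⟩ : Fin 30) ∈ ((↑S : Set (Fin 30))ᶜ)),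
    (G.induce ((↑S : Set (Fin 30))ᶜ)).Reachable ⟨⟨r, hr.1⟩, hrS⟩ ⟨⟨j, h1⟩, h2⟩
  have hal : ∀ j, (al u v).testBit j = true → ∃ h1 : j < 30,
      (⟨j, h1⟩ : Fin 30) ∈ ((↑S : Set (Fin 30))ᶜ) := by
    intro j hj
    have h1 : j < 30 := by
      by_contra hc
      have : (al u v).testBit j = false :=
        Nat.testBit_eq_false_of_lt (lt_of_lt_of_le (al_lt u v)
          (Nat.pow_le_pow_right (by norm_num) (by omega)))
      rw [this] at hj
      exact absurd hj (by decide)
    refine ⟨h1, ?_⟩
    have := al_check u v ⟨j, h1⟩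
    rw [show ((⟨j, h1⟩ : Fin 30) : ℕ) = j from rfl] at this
    rw [hj] at this
    rw [Set.mem_compl_iff, Finset.mem_coe, hS]
    have h3 := this.symm
    simp only [Bool.and_eq_true, decide_eq_true_eq] at h3
    push Not
    exact h3
  have hR : ∀ k j, R k → (nb k).testBit j = true → (al u v).testBit j = true → R j := by
    intro k j hk hkj hj
    obtain ⟨hk1, hk2, hk3⟩ := hk
    obtain ⟨hj1, hj2⟩ := hal j hj
    refine ⟨hj1, hj2, hk3.trans ?_⟩
    apply SimpleGraph.Adj.reachable
    show G.Adj ⟨k, hk1⟩ ⟨j, hj1⟩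
    exact hkj
  have hm : ∀ j, (1 <<< r).testBit j = true → R j := by
    intro j hj
    have : j = r := by
      rw [Nat.one_shiftLeft, Nat.testBit_two_pow] at hj
      simpa [eq_comm] using hj
    subst this
    exact ⟨hr.1, hrS, SimpleGraph.Reachable.refl _⟩
  have hall := sweeps_sound R (al u v) hR (1 <<< r) hm 5
  rw [hrdef, sweeps_check u v huv] at hall
  have key : ∀ w : ((↑S : Set (Fin 30))ᶜ : Set (Fin 30)),
      (G.induce ((↑S : Set (Fin 30))ᶜ)).Reachable ⟨⟨r, hr.1⟩, hrS⟩ w := by
    intro w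
    obtain ⟨⟨j, hj⟩, hw⟩ := w
    have hb : (al u v).testBit j = true := by
      have := al_check u v ⟨j, hj⟩
      rw [show ((⟨j, hj⟩ : Fin 30) : ℕ) = j from rfl] at this
      rw [this]
      rw [Set.mem_compl_iff, Finset.mem_coe, hS] at hw
      push Not at hw
      simp only [Bool.and_eq_true, decide_eq_true_eq]
      exact hw
    obtain ⟨h1, h2, h3⟩ := hall j hb
    exact h3
  haveI : Nonempty ((↑S : Set (Fin 30))ᶜ : Set (Fin 30)) := ⟨⟨⟨r, hr.1⟩, hrS⟩⟩
  refine ⟨fun x y => (key x).symm.trans (key y)⟩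

theorem three_connected (S : Finset (Fin 30)) (hS : S.card < 3) :
    (G.induce ((↑S : Set (Fin 30))ᶜ)).Connected := by
  have h : S.card = 0 ∨ S.card = 1 ∨ S.card = 2 := by omega
  rcases h with h | h | h
  · rw [Finset.card_eq_zero] at h
    subst h
    refine conn_uv ∅ 30 30 le_rfl ?_
    intro j
    have := j.isLt
    simp
    omega
  · obtain ⟨a, rfl⟩ := Finset.card_eq_one.mp h
    refine conn_uv {a} ⟨a.val, by omega⟩ ⟨a.val, by omega⟩ le_rfl ?_
    intro j
    simp [Fin.ext_iff]
  · obtain ⟨a, b, hab, rfl⟩ := Finset.card_eq_two.mp h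
    rcases le_total a.val b.val with hle | hle
    · refine conn_uv {a, b} ⟨a.val, by omega⟩ ⟨b.val, by omega⟩ hle ?_
      intro j
      simp [Fin.ext_iff]
    · refine conn_uv {a, b} ⟨b.val, by omega⟩ ⟨a.val, by omega⟩ hle ?_
      intro j
      simp [Fin.ext_iff, or_comm]

end Pool.Agent.H28.CC
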