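import Mathlib

set_option autoImplicit false

namespace Pool.Agent.H28.CC

def vb (b : Bool) : ℕ := if b then 2 else 1

theorem gadget_bool : ∀ (m e e' y1 y2 y3 y4 y5 y6 y7 y8 : Bool),
    ((vb m + vb y1 + vb y2) % 2 = 0) → ((vb e + vb y3 + vb y4 + vb y8) % 2 = 0) →
    ((vb e' + vb y5 + vb y6 + vb y8) % 2 = 0) → ((vb y1 + vb y3 + vb y5 + vb y7) % 2 = 0) →
    ((vb y2 + vb y4 + vb y6 + vb y7) % 2 = 0) →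
    (vb m = 2 ∧ vb e = 1 ∧ vb e' = 1) ∨
      24 ≤ 2 * (vb y1 + vb y2 + vb y3 + vb y4 + vb y5 + vb y6 + vb y7 + vb y8) + vb m + vb e + vb e' := by
  decide +kernel

theorem exists_vb (n : ℕ) (h : 1 ≤ n ∧ n ≤ 2) : ∃ b : Bool, n = vb b := by
  obtain ⟨h1, h2⟩ := h
  interval_cases n
  · exact ⟨false, rfl⟩
  · exact ⟨true, rfl⟩

theorem gadget (m e e' y1 y2 y3 y4 y5 y6 y7 y8 : ℕ)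
    (b1 : 1 ≤ m ∧ m ≤ 2) (b2 : 1 ≤ e ∧ e ≤ 2) (b3 : 1 ≤ e' ∧ e' ≤ 2)
    (c1 : 1 ≤ y1 ∧ y1 ≤ 2) (c2 : 1 ≤ y2 ∧ y2 ≤ 2) (c3 : 1 ≤ y3 ∧ y3 ≤ 2) (c4 : 1 ≤ y4 ∧ y4 ≤ 2)
    (c5 : 1 ≤ y5 ∧ y5 ≤ 2) (c6 : 1 ≤ y6 ∧ y6 ≤ 2) (c7 : 1 ≤ y7 ∧ y7 ≤ 2) (c8 : 1 ≤ y8 ∧ y8 ≤ 2)
    (p0 : Even (m + y1 + y2)) (p1 : Even (e + y3 + y4 + y8)) (p2 : Even (e' + y5 + y6 + y8))
    (p3 : Even (y1 + y3 + y5 + y7)) (p4 : Even (y2 + y4 + y6 + y7)) :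
    (m = 2 ∧ e = 1 ∧ e' = 1) ∨
      24 ≤ 2 * (y1 + y2 + y3 + y4 + y5 + y6 + y7 + y8) + m + e + e' := by
  rw [Nat.even_iff] at p0 p1 p2 p3 p4
  obtain ⟨x0, rfl⟩ := exists_vb _ b1
  obtain ⟨x1, rfl⟩ := exists_vb _ b2
  obtain ⟨x2, rfl⟩ := exists_vb _ b3
  obtain ⟨z1, rfl⟩ := exists_vb _ c1
  obtain ⟨z2, rfl⟩ := exists_vb _ c2
  obtain ⟨z3, rfl⟩ := exists_vb _ c3
  obtain ⟨z4, rfl⟩ := exists_vb _ c4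
  obtain ⟨z5, rfl⟩ := exists_vb _ c5
  obtain ⟨z6, rfl⟩ := exists_vb _ c6
  obtain ⟨z7, rfl⟩ := exists_vb _ c7
  obtain ⟨z8, rfl⟩ := exists_vb _ c8
  exact gadget_bool _ _ _ _ _ _ _ _ _ _ _ p0 p1 p2 p3 p4

theorem par_cut (m e e' y1 y2 y3 y4 y5 y6 y7 y8 : ℕ)
    (p0 : Even (m + y1 + y2)) (p1 : Even (e + y3 + y4 + y8)) (p2 : Even (e' + y5 + y6 + y8))
    (p3 : Even (y1 + y3 + y5 + y7)) (p4 : Even (y2 + y4 + y6 + y7)) : Even (m + e + e') := by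
  have h1 : Even ((m + y1 + y2) + (e + y3 + y4 + y8) + (e' + y5 + y6 + y8) + (y1 + y3 + y5 + y7)
    + (y2 + y4 + y6 + y7)) := (((p0.add p1).add p2).add p3).add p4
  have h2 : (m + y1 + y2) + (e + y3 + y4 + y8) + (e' + y5 + y6 + y8) + (y1 + y3 + y5 + y7)
    + (y2 + y4 + y6 + y7) = (m + e + e') + 2 * (y1 + y2 + y3 + y4 + y5 + y6 + y7 + y8) := by ring
  rw [h2] at h1
  rwa [Nat.even_add, iff_true_right (even_two_mul _)] at h1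

theorem w_lb (Y M E E' : ℕ) (g : (M = 2 ∧ E = 1 ∧ E' = 1) ∨ 24 ≤ 2 * Y + M + E + E') (s : 8 ≤ Y) :
    20 ≤ 2 * Y + M + E + E' := by omega

theorem u_lb (M F F' : ℕ) (m : 1 ≤ M) (f : 1 ≤ F) (f' : 1 ≤ F') (r : (M + F + F') % 2 = 0) :
    4 ≤ M + F + F' := by omega

theorem g_left (Y M E E' : ℕ) (g : (M = 2 ∧ E = 1 ∧ E' = 1) ∨ 24 ≤ 2 * Y + M + E + E')
    (h : E ≠ 1) : 24 ≤ 2 * Y + M + E + E' := by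
  rcases g with g | g
  · exact absurd g.2.1 h
  · exact g

theorem g_right (Y M E E' : ℕ) (g : (M = 2 ∧ E = 1 ∧ E' = 1) ∨ 24 ≤ 2 * Y + M + E + E')
    (h : E' ≠ 1) : 24 ≤ 2 * Y + M + E + E' := by
  rcases g with g | g
  · exact absurd g.2.2 h
  · exact g

theorem m_two (M : ℕ) (m : 1 ≤ M ∧ M ≤ 2) (q : (M + 1 + 1) % 2 = 0) : M = 2 := by omega

theorem f_eq (F F' : ℕ) (f : 1 ≤ F ∧ F ≤ 2) (f' : 1 ≤ F' ∧ F' ≤ 2) (r : (2 + F + F') % 2 = 0) :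
    F = F' := by omega

theorem final_sum (M0 M1 M2 M3 M4 E0 E1 E2 E3 E4 F0 F1 F2 F3 F4 Y0 Y1 Y2 Y3 Y4 : ℕ)
    (hsum : M0 + E0 + F0 + Y0 + (M1 + E1 + F1 + Y1) + (M2 + E2 + F2 + Y2) + (M3 + E3 + F3 + Y3)
      + (M4 + E4 + F4 + Y4) ≤ 62)
    (g0 : (M0 = 2 ∧ E0 = 1 ∧ E4 = 1) ∨ 24 ≤ 2 * Y0 + M0 + E0 + E4)
    (g1 : (M1 = 2 ∧ E1 = 1 ∧ E0 = 1) ∨ 24 ≤ 2 * Y1 + M1 + E1 + E0)
    (g2 : (M2 = 2 ∧ E2 = 1 ∧ E1 = 1) ∨ 24 ≤ 2 * Y2 + M2 + E2 + E1)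
    (g3 : (M3 = 2 ∧ E3 = 1 ∧ E2 = 1) ∨ 24 ≤ 2 * Y3 + M3 + E3 + E2)
    (g4 : (M4 = 2 ∧ E4 = 1 ∧ E3 = 1) ∨ 24 ≤ 2 * Y4 + M4 + E4 + E3)
    (s0 : 8 ≤ Y0) (s1 : 8 ≤ Y1) (s2 : 8 ≤ Y2) (s3 : 8 ≤ Y3) (s4 : 8 ≤ Y4)
    (q0 : Even (M0 + E0 + E4)) (q1 : Even (M1 + E1 + E0)) (q2 : Even (M2 + E2 + E1))
    (q3 : Even (M3 + E3 + E2)) (q4 : Even (M4 + E4 + E3))
    (r0 : Even (M0 + F0 + F3)) (r1 : Even (M1 + F1 + F4)) (r2 : Even (M2 + F2 + F0))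
    (r3 : Even (M3 + F3 + F1)) (r4 : Even (M4 + F4 + F2))
    (m0 : 1 ≤ M0 ∧ M0 ≤ 2) (m1 : 1 ≤ M1 ∧ M1 ≤ 2) (m2 : 1 ≤ M2 ∧ M2 ≤ 2) (m3 : 1 ≤ M3 ∧ M3 ≤ 2)
    (m4 : 1 ≤ M4 ∧ M4 ≤ 2)
    (f0 : 1 ≤ F0 ∧ F0 ≤ 2) (f1 : 1 ≤ F1 ∧ F1 ≤ 2) (f2 : 1 ≤ F2 ∧ F2 ≤ 2) (f3 : 1 ≤ F3 ∧ F3 ≤ 2)
    (f4 : 1 ≤ F4 ∧ F4 ≤ 2) :
    (M0 = 2 ∧ E0 = 1 ∧ F0 = 1) ∧ (M1 = 2 ∧ E1 = 1 ∧ F1 = 1) ∧ (M2 = 2 ∧ E2 = 1 ∧ F2 = 1) ∧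
    (M3 = 2 ∧ E3 = 1 ∧ F3 = 1) ∧ (M4 = 2 ∧ E4 = 1 ∧ F4 = 1) := by
  rw [Nat.even_iff] at q0 q1 q2 q3 q4 r0 r1 r2 r3 r4
  have w0 := w_lb _ _ _ _ g0 s0
  have w1 := w_lb _ _ _ _ g1 s1
  have w2 := w_lb _ _ _ _ g2 s2
  have w3 := w_lb _ _ _ _ g3 s3
  have w4 := w_lb _ _ _ _ g4 s4
  have u0 := u_lb _ _ _ m0.1 f0.1 f3.1 r0
  have u1 := u_lb _ _ _ m1.1 f1.1 f4.1 r1
  have u2 := u_lb _ _ _ m2.1 f2.1 f0.1 r2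
  have u3 := u_lb _ _ _ m3.1 f3.1 f1.1 r3
  have u4 := u_lb _ _ _ m4.1 f4.1 f2.1 r4
  have E0' : E0 = 1 := by
    by_contra h
    have h1 := g_left _ _ _ _ g0 h
    have h2 := g_right _ _ _ _ g1 h
    clear h g0 g1 g2 g3 g4 q0 q1 q2 q3 q4 r0 r1 r2 r3 r4 m0 m1 m2 m3 m4 f0 f1 f2 f3 f4
    linarith
  have E1' : E1 = 1 := by
    by_contra h
    have h1 := g_left _ _ _ _ g1 h
    have h2 := g_right _ _ _ _ g2 h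
    clear h g0 g1 g2 g3 g4 q0 q1 q2 q3 q4 r0 r1 r2 r3 r4 m0 m1 m2 m3 m4 f0 f1 f2 f3 f4 E0'
    linarith
  have E2' : E2 = 1 := by
    by_contra h
    have h1 := g_left _ _ _ _ g2 h
    have h2 := g_right _ _ _ _ g3 h
    clear h g0 g1 g2 g3 g4 q0 q1 q2 q3 q4 r0 r1 r2 r3 r4 m0 m1 m2 m3 m4 f0 f1 f2 f3 f4 E0' E1'
    linarith
  have E3' : E3 = 1 := by
    by_contra h
    have h1 := g_left _ _ _ _ g3 h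
    have h2 := g_right _ _ _ _ g4 h
    clear h g0 g1 g2 g3 g4 q0 q1 q2 q3 q4 r0 r1 r2 r3 r4 m0 m1 m2 m3 m4 f0 f1 f2 f3 f4 E0' E1' E2'
    linarith
  have E4' : E4 = 1 := by
    by_contra h
    have h1 := g_left _ _ _ _ g4 h
    have h2 := g_right _ _ _ _ g0 h
    clear h g0 g1 g2 g3 g4 q0 q1 q2 q3 q4 r0 r1 r2 r3 r4 m0 m1 m2 m3 m4 f0 f1 f2 f3 f4 E0' E1' E2' E3'
    linarith
  subst E0' E1' E2' E3' E4'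
  have M0' := m_two _ m0 q0
  have M1' := m_two _ m1 q1
  have M2' := m_two _ m2 q2
  have M3' := m_two _ m3 q3
  have M4' := m_two _ m4 q4
  subst M0' M1' M2' M3' M4'
  have F03 := f_eq _ _ f0 f3 r0
  have F14 := f_eq _ _ f1 f4 r1
  have F20 := f_eq _ _ f2 f0 r2
  have F31 := f_eq _ _ f3 f1 r3
  have hF : F0 = 1 := by
    by_contra h
    have h2 : F0 = 2 := le_antisymm f0.2 (by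
      rcases lt_or_eq_of_le f0.1 with h' | h'
      · exact h'
      · exact absurd h'.symm h)
    have h3 : F3 = 2 := F03 ▸ h2
    have h1 : F1 = 2 := F31 ▸ h3
    have h4 : F4 = 2 := F14 ▸ h1
    have h5 : F2 = 2 := F20.trans h2
    clear h g0 g1 g2 g3 g4 q0 q1 q2 q3 q4 r0 r1 r2 r3 r4 m0 m1 m2 m3 m4 f0 f1 f2 f3 f4 F03 F14 F20 F31
    linarith
  have h3 : F3 = 1 := F03 ▸ hF
  have h1 : F1 = 1 := F31 ▸ h3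
  have h4 : F4 = 1 := F14 ▸ h1
  have h5 : F2 = 1 := F20.trans hF
  exact ⟨⟨rfl, rfl, hF⟩, ⟨rfl, rfl, h1⟩, ⟨rfl, rfl, h5⟩, ⟨rfl, rfl, h3⟩, ⟨rfl, rfl, h4⟩⟩

/-- No labelling of the two 5-cycles. -/
theorem no_label (E0 E1 E2 E3 E4 F0 F1 F2 F3 F4 : ℕ)
    (n0 : E0 ≠ E4) (n1 : E1 ≠ E0) (n2 : E2 ≠ E1) (n3 : E3 ≠ E2) (n4 : E4 ≠ E3)
    (h0 : (E0 = F0 ∧ E4 = F3) ∨ (E0 = F3 ∧ E4 = F0))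
    (h1 : (E1 = F1 ∧ E0 = F4) ∨ (E1 = F4 ∧ E0 = F1))
    (h2 : (E2 = F2 ∧ E1 = F0) ∨ (E2 = F0 ∧ E1 = F2))
    (h3 : (E3 = F3 ∧ E2 = F1) ∨ (E3 = F1 ∧ E2 = F3))
    (h4 : (E4 = F4 ∧ E3 = F2) ∨ (E4 = F2 ∧ E3 = F4)) : False := by
  rcases h0 with ⟨a0, b0⟩ | ⟨a0, b0⟩ <;> rcases h1 with ⟨a1, b1⟩ | ⟨a1, b1⟩ <;>
  rcases h2 with ⟨a2, b2⟩ | ⟨a2, b2⟩ <;> rcases h3 with ⟨a3, b3⟩ | ⟨a3, b3⟩ <;>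
  rcases h4 with ⟨a4, b4⟩ | ⟨a4, b4⟩ <;>
  first
    | exact n0 (by omega)
    | exact n1 (by omega)
    | exact n2 (by omega)
    | exact n3 (by omega)
    | exact n4 (by omega)

end Pool.Agent.H28.CC
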