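import Pool.Agent.H28.CycleCoverGraph
import Pool.Agent.H28.CycleCoverNum

set_option autoImplicit false

/-! The lower bound: a cycle cover with all multiplicities at most 2 has total length at least 63. -/

namespace Pool.Agent.H28.CC

open SimpleGraph

/-- Indicator of a proposition. -/
noncomputable def ind (p : Prop) : ℕ := @ite _ p (Classical.propDecidable p) 1 0

theorem ind_pos {p : Prop} (h : p) : ind p = 1 := by unfold ind; simp [h]
theorem ind_neg {p : Prop} (h : ¬ p) : ind p = 0 := by unfold ind; simp [h]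
theorem ind_le (p : Prop) : ind p ≤ 1 := by
  by_cases h : p
  · rw [ind_pos h]
  · rw [ind_neg h]; omega

/-- Number of edges of a closed trail at a vertex, computed along a list of neighbours, is even. -/
theorem even_at {u : Fin 30} (c : G.Walk u u) (hc : c.IsCycle) (a : Fin 30) (nl : List (Fin 30))
    (hnd : nl.Nodup) (hnl : ∀ b, G.Adj a b → b ∈ nl) :
    Even ((nl.map (fun b => ind (s(a, b) ∈ c.edges))).sum) := by
  have hT : c.IsTrail := hc.isCircuit.isTrail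
  have hev := (hT.even_countP_edges_iff a).mpr (fun h => absurd rfl h)
  have hsum : ∀ l : List (Fin 30), (l.map (fun b => ind (s(a, b) ∈ c.edges))).sum =
      (l.filter (fun b => decide (s(a, b) ∈ c.edges))).length := by
    intro l
    induction l with
    | nil => rfl
    | cons x l ih =>
      rw [List.map_cons, List.sum_cons, ih, List.filter_cons]
      by_cases hx : s(a, x) ∈ c.edges
      · rw [ind_pos hx]; simp [hx]; omega
      · rw [ind_neg hx]; simp [hx]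
  rw [hsum]
  have hperm : ((nl.filter (fun b => decide (s(a, b) ∈ c.edges))).map (fun b => s(a, b))).Perm
      (c.edges.filter (fun e => decide (a ∈ e))) := by
    rw [List.perm_ext_iff_of_nodup]
    · intro e
      simp only [List.mem_map, List.mem_filter, decide_eq_true_eq]
      constructor
      · rintro ⟨b, ⟨_, hb⟩, rfl⟩
        exact ⟨hb, Sym2.mem_mk_left a b⟩
      · rintro ⟨he, hae⟩
        obtain ⟨b, rfl⟩ := Sym2.mem_iff_exists.mp hae
        have hadj : G.Adj a b := c.adj_of_mem_edges he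
        exact ⟨b, ⟨hnl b hadj, he⟩, rfl⟩
    · apply List.Nodup.map
      · intro x y hxy
        exact Sym2.congr_right.mp hxy
      · exact hnd.filter _
    · exact hT.edges_nodup.filter _
  have hlen := hperm.length_eq
  rw [List.length_map] at hlen
  rw [hlen, ← List.countP_eq_length_filter]
  exact hev

/-- Vertex number `6 i + r`. -/
def vt (i : Fin 5) (r : Fin 6) : Fin 30 := ⟨6 * i.val + r.val, by omega⟩

/-- The 55 edges. -/
def ed (i : Fin 5) (t : Fin 11) : Sym2 (Fin 30) :=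
  match t with
  | 0 => s(vt i 0, vt i 5)
  | 1 => s(vt i 1, vt (i + 1) 2)
  | 2 => s(vt i 5, vt (i + 2) 5)
  | 3 => s(vt i 0, vt i 3)
  | 4 => s(vt i 0, vt i 4)
  | 5 => s(vt i 1, vt i 3)
  | 6 => s(vt i 1, vt i 4)
  | 7 => s(vt i 2, vt i 3)
  | 8 => s(vt i 2, vt i 4)
  | 9 => s(vt i 3, vt i 4)
  | 10 => s(vt i 1, vt i 2)

theorem ed_inj : ∀ p q : Fin 5 × Fin 11, ed p.1 p.2 = ed q.1 q.2 → p = q := by
  decide +kernel

theorem ed_mem : ∀ i t, ed i t ∈ G.edgeSet := by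
  have h : ∀ i t, ed i t ∈ (G.edgeFinset) := by decide +kernel
  intro i t
  have := h i t
  rwa [SimpleGraph.mem_edgeFinset] at this

theorem nl0 : ∀ i : Fin 5, [vt i 5, vt i 3, vt i 4].Nodup ∧
    ∀ b : Fin 30, adjB (vt i 0) b = true → b ∈ [vt i 5, vt i 3, vt i 4] := by decide +kernel
theorem nl1 : ∀ i : Fin 5, [vt (i + 1) 2, vt i 3, vt i 4, vt i 2].Nodup ∧
    ∀ b : Fin 30, adjB (vt i 1) b = true → b ∈ [vt (i + 1) 2, vt i 3, vt i 4, vt i 2] := by decide +kernel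
theorem nl2 : ∀ i : Fin 5, [vt (i + 4) 1, vt i 3, vt i 4, vt i 1].Nodup ∧
    ∀ b : Fin 30, adjB (vt i 2) b = true → b ∈ [vt (i + 4) 1, vt i 3, vt i 4, vt i 1] := by decide +kernel
theorem nl3 : ∀ i : Fin 5, [vt i 0, vt i 1, vt i 2, vt i 4].Nodup ∧
    ∀ b : Fin 30, adjB (vt i 3) b = true → b ∈ [vt i 0, vt i 1, vt i 2, vt i 4] := by decide +kernel
theorem nl4 : ∀ i : Fin 5, [vt i 0, vt i 1, vt i 2, vt i 3].Nodup ∧
    ∀ b : Fin 30, adjB (vt i 4) b = true → b ∈ [vt i 0, vt i 1, vt i 2, vt i 3] := by decide +kernel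
theorem nl5 : ∀ i : Fin 5, [vt i 0, vt (i + 2) 5, vt (i + 3) 5].Nodup ∧
    ∀ b : Fin 30, adjB (vt i 5) b = true → b ∈ [vt i 0, vt (i + 2) 5, vt (i + 3) 5] := by decide +kernel

theorem sw : ∀ i : Fin 5, s(vt i 2, vt (i + 4) 1) = ed (i + 4) 1 ∧
    s(vt i 5, vt (i + 3) 5) = ed (i + 3) 2 ∧ s(vt i 2, vt i 1) = ed i 10 ∧
    s(vt i 3, vt i 0) = ed i 3 ∧ s(vt i 3, vt i 1) = ed i 5 ∧ s(vt i 3, vt i 2) = ed i 7 ∧
    s(vt i 4, vt i 0) = ed i 4 ∧ s(vt i 4, vt i 1) = ed i 6 ∧ s(vt i 4, vt i 2) = ed i 8 ∧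
    s(vt i 4, vt i 3) = ed i 9 ∧ s(vt i 5, vt i 0) = ed i 0 := by decide +kernel

/-- Indicator of the edge `ed i t` in the walk `c`. -/
noncomputable def zz {u : Fin 30} (c : G.Walk u u) (i : Fin 5) (t : Fin 11) : ℕ :=
  ind (ed i t ∈ c.edges)

structure Par (z : Fin 5 → Fin 11 → ℕ) : Prop where
  h0 : ∀ i, Even (z i 0 + z i 3 + z i 4)
  h1 : ∀ i, Even (z i 1 + z i 5 + z i 6 + z i 10)
  h2 : ∀ i, Even (z (i + 4) 1 + z i 7 + z i 8 + z i 10)
  h3 : ∀ i, Even (z i 3 + z i 5 + z i 7 + z i 9)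
  h4 : ∀ i, Even (z i 4 + z i 6 + z i 8 + z i 9)
  h5 : ∀ i, Even (z i 0 + z i 2 + z (i + 3) 2)

theorem par_zz {u : Fin 30} (c : G.Walk u u) (hc : c.IsCycle) : Par (zz c) := by
  constructor
  · intro i
    have h := even_at c hc (vt i 0) _ (nl0 i).1 (nl0 i).2
    simpa [zz, ed, add_assoc] using h
  · intro i
    have h := even_at c hc (vt i 1) _ (nl1 i).1 (nl1 i).2
    simpa [zz, ed, add_assoc] using h
  · intro i
    have h := even_at c hc (vt i 2) _ (nl2 i).1 (nl2 i).2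
    simp only [List.map_cons, List.map_nil, List.sum_cons, List.sum_nil, add_zero,
      (sw i).1, (sw i).2.2.1] at h
    simpa [zz, ed, add_assoc] using h
  · intro i
    have h := even_at c hc (vt i 3) _ (nl3 i).1 (nl3 i).2
    simp only [List.map_cons, List.map_nil, List.sum_cons, List.sum_nil, add_zero,
      (sw i).2.2.2.1, (sw i).2.2.2.2.1, (sw i).2.2.2.2.2.1] at h
    simpa [zz, ed, add_assoc] using h
  · intro i
    have h := even_at c hc (vt i 4) _ (nl4 i).1 (nl4 i).2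
    simp only [List.map_cons, List.map_nil, List.sum_cons, List.sum_nil, add_zero,
      (sw i).2.2.2.2.2.2.1, (sw i).2.2.2.2.2.2.2.1, (sw i).2.2.2.2.2.2.2.2.1,
      (sw i).2.2.2.2.2.2.2.2.2.1] at h
    simpa [zz, ed, add_assoc] using h
  · intro i
    have h := even_at c hc (vt i 5) _ (nl5 i).1 (nl5 i).2
    simp only [List.map_cons, List.map_nil, List.sum_cons, List.sum_nil, add_zero,
      (sw i).2.1, (sw i).2.2.2.2.2.2.2.2.2.2] at h
    simpa [zz, ed, add_assoc] using h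

theorem zz_sum_le {u : Fin 30} (c : G.Walk u u) :
    ∑ i, ∑ t, zz c i t ≤ c.length := by
  rw [← Finset.sum_product' (s := Finset.univ) (t := Finset.univ) (f := fun i t => zz c i t)]
  have h1 : ∑ x ∈ (Finset.univ : Finset (Fin 5)) ×ˢ (Finset.univ : Finset (Fin 11)),
      zz c x.1 x.2 = (((Finset.univ : Finset (Fin 5)) ×ˢ (Finset.univ : Finset (Fin 11))).filter
        (fun x => ed x.1 x.2 ∈ c.edges)).card := by
    rw [Finset.card_filter]
    apply Finset.sum_congr rfl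
    intro x _
    unfold zz
    by_cases hx : ed x.1 x.2 ∈ c.edges
    · rw [ind_pos hx, if_pos hx]
    · rw [ind_neg hx, if_neg hx]
  rw [h1]
  have h2 : ((((Finset.univ : Finset (Fin 5)) ×ˢ (Finset.univ : Finset (Fin 11))).filter
        (fun x => ed x.1 x.2 ∈ c.edges)).image (fun x => ed x.1 x.2)).card =
        (((Finset.univ : Finset (Fin 5)) ×ˢ (Finset.univ : Finset (Fin 11))).filter
        (fun x => ed x.1 x.2 ∈ c.edges)).card := by
    apply Finset.card_image_of_injective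
    intro p q hpq
    exact ed_inj p q hpq
  rw [← h2, ← SimpleGraph.Walk.length_edges]
  refine le_trans (Finset.card_le_card ?_) (List.toFinset_card_le c.edges)
  intro e he
  rw [Finset.mem_image] at he
  obtain ⟨p, hp, rfl⟩ := he
  rw [Finset.mem_filter] at hp
  exact List.mem_toFinset.mpr hp.2


theorem sum11 (g : Fin 11 → ℕ) : ∑ t, g t = g 0 + g 1 + g 2 +
    (g 3 + g 4 + g 5 + g 6 + g 7 + g 8 + g 9 + g 10) := by
  rw [Fin.sum_univ_succ, Fin.sum_univ_succ, Fin.sum_univ_succ, Fin.sum_univ_eight]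
  show g 0 + (g 1 + (g 2 + (g 3 + g 4 + g 5 + g 6 + g 7 + g 8 + g 9 + g 10))) = _
  ring

theorem step2 (X : Fin 5 → Fin 11 → ℕ) (hX : ∀ i t, 1 ≤ X i t ∧ X i t ≤ 2) (hp : Par X)
    (hsum : ∑ i, ∑ t, X i t ≤ 62) : ∀ i, X i 0 = 2 ∧ X i 1 = 1 ∧ X i 2 = 1 := by
  have hg : ∀ i, (X i 0 = 2 ∧ X i 1 = 1 ∧ X (i + 4) 1 = 1) ∨
      24 ≤ 2 * (X i 3 + X i 4 + X i 5 + X i 6 + X i 7 + X i 8 + X i 9 + X i 10) +
        X i 0 + X i 1 + X (i + 4) 1 := by
    intro i
    exact gadget _ _ _ _ _ _ _ _ _ _ _ (hX _ _) (hX _ _) (hX _ _) (hX _ _) (hX _ _) (hX _ _)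
      (hX _ _) (hX _ _) (hX _ _) (hX _ _) (hX _ _) (hp.h0 i) (hp.h1 i) (hp.h2 i) (hp.h3 i) (hp.h4 i)
  have hS : ∀ i, 8 ≤ X i 3 + X i 4 + X i 5 + X i 6 + X i 7 + X i 8 + X i 9 + X i 10 := by
    intro i
    have a3 := hX i 3; have a4 := hX i 4; have a5 := hX i 5; have a6 := hX i 6
    have a7 := hX i 7; have a8 := hX i 8; have a9 := hX i 9; have a10 := hX i 10
    linarith [a3.1, a4.1, a5.1, a6.1, a7.1, a8.1, a9.1, a10.1]
  have hc : ∀ i, Even (X i 0 + X i 1 + X (i + 4) 1) := fun i =>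
    par_cut _ _ _ _ _ _ _ _ _ _ _ (hp.h0 i) (hp.h1 i) (hp.h2 i) (hp.h3 i) (hp.h4 i)
  simp only [sum11] at hsum
  rw [Fin.sum_univ_five] at hsum
  have h := final_sum (X 0 0) (X 1 0) (X 2 0) (X 3 0) (X 4 0) (X 0 1) (X 1 1) (X 2 1) (X 3 1)
    (X 4 1) (X 0 2) (X 1 2) (X 2 2) (X 3 2) (X 4 2) _ _ _ _ _ hsum (hg 0) (hg 1) (hg 2) (hg 3)
    (hg 4) (hS 0) (hS 1) (hS 2) (hS 3) (hS 4) (hc 0) (hc 1) (hc 2) (hc 3) (hc 4)
    (hp.h5 0) (hp.h5 1) (hp.h5 2) (hp.h5 3) (hp.h5 4)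
    (hX _ _) (hX _ _) (hX _ _) (hX _ _) (hX _ _) (hX _ _) (hX _ _) (hX _ _) (hX _ _) (hX _ _)
  intro i
  fin_cases i
  · exact h.1
  · exact h.2.1
  · exact h.2.2.1
  · exact h.2.2.2.1
  · exact h.2.2.2.2

theorem unique_of_sum {n : ℕ} (z : Fin n → ℕ) (hz : ∀ k, z k ≤ 1) (hs : ∑ k, z k = 1) :
    ∃ k, z k = 1 ∧ ∀ k', k' ≠ k → z k' = 0 := by
  obtain ⟨k, hk⟩ : ∃ k, z k ≠ 0 := by
    by_contra hc
    push Not at hc
    rw [Finset.sum_eq_zero (fun k _ => hc k)] at hs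
    exact absurd hs (by decide)
  have hk1 : z k = 1 := le_antisymm (hz k) (Nat.one_le_iff_ne_zero.mpr hk)
  refine ⟨k, hk1, ?_⟩
  intro k' hk'
  rw [← Finset.add_sum_erase _ _ (Finset.mem_univ k), hk1] at hs
  have h0 : ∑ x ∈ Finset.univ.erase k, z x = 0 := by omega
  exact (Finset.sum_eq_zero_iff.mp h0) k' (Finset.mem_erase.mpr ⟨hk', Finset.mem_univ _⟩)

theorem cut_labels {n : ℕ} (a b c : Fin n → ℕ) (ha : ∀ k, a k ≤ 1) (hb : ∀ k, b k ≤ 1)
    (hc : ∀ k, c k ≤ 1) (hpar : ∀ k, Even (a k + b k + c k)) (hsum : ∑ k, a k = 2)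
    (kb kc : Fin n) (hkb : b kb = 1 ∧ ∀ k', k' ≠ kb → b k' = 0)
    (hkc : c kc = 1 ∧ ∀ k', k' ≠ kc → c k' = 0) :
    kb ≠ kc ∧ ∀ k, a k = 1 ↔ (k = kb ∨ k = kc) := by
  have hne : kb ≠ kc := by
    intro h
    subst h
    have : ∀ k, a k = 0 := by
      intro k
      have h1 := hpar k
      have h2 := ha k
      rw [Nat.even_iff] at h1
      by_cases hk : k = kb
      · subst hk
        rw [hkb.1, hkc.1] at h1
        omega
      · rw [hkb.2 k hk, hkc.2 k hk] at h1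
        omega
    rw [Finset.sum_eq_zero (fun k _ => this k)] at hsum
    exact absurd hsum (by decide)
  refine ⟨hne, ?_⟩
  intro k
  have h1 := hpar k
  have h2 := ha k
  rw [Nat.even_iff] at h1
  by_cases hk : k = kb
  · subst hk
    rw [hkb.1, hkc.2 k hne] at h1
    simp only [true_or, iff_true]
    omega
  · by_cases hk2 : k = kc
    · subst hk2
      rw [hkb.2 k hk, hkc.1] at h1
      simp only [or_true, iff_true]
      omega
    · rw [hkb.2 k hk, hkc.2 k hk2] at h1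
      simp only [hk, hk2, or_self, iff_false]
      omega

theorem pair_eq {α : Type*} (e e' f f' : α) (a : α → Prop) (hne : e ≠ e')
    (h1 : ∀ k, a k ↔ (k = e ∨ k = e')) (h2 : ∀ k, a k ↔ (k = f ∨ k = f')) :
    (e = f ∧ e' = f') ∨ (e = f' ∧ e' = f) := by
  have he := (h2 e).mp ((h1 e).mpr (Or.inl rfl))
  have he' := (h2 e').mp ((h1 e').mpr (Or.inr rfl))
  rcases he with he | he <;> rcases he' with he' | he'
  · exact absurd (he.trans he'.symm) hne
  · exact Or.inl ⟨he, he'⟩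
  · exact Or.inr ⟨he, he'⟩
  · exact absurd (he.trans he'.symm) hne

theorem step3 {n : ℕ} (Z : Fin n → Fin 5 → Fin 11 → ℕ) (hZ : ∀ k i t, Z k i t ≤ 1)
    (hpar : ∀ k, Par (Z k)) (h0 : ∀ i, ∑ k, Z k i 0 = 2) (h1 : ∀ i, ∑ k, Z k i 1 = 1)
    (h2 : ∀ i, ∑ k, Z k i 2 = 1) : False := by
  have hE := fun i => unique_of_sum (fun k => Z k i 1) (fun k => hZ k i 1) (h1 i)
  have hF := fun i => unique_of_sum (fun k => Z k i 2) (fun k => hZ k i 2) (h2 i)
  choose E hE using hE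
  choose F hF using hF
  have hcut : ∀ k i, Even (Z k i 0 + Z k i 1 + Z k (i + 4) 1) := fun k i =>
    par_cut _ _ _ _ _ _ _ _ _ _ _ ((hpar k).h0 i) ((hpar k).h1 i) ((hpar k).h2 i)
      ((hpar k).h3 i) ((hpar k).h4 i)
  have hL := fun i => cut_labels (fun k => Z k i 0) (fun k => Z k i 1) (fun k => Z k (i + 4) 1)
    (fun k => hZ k i 0) (fun k => hZ k i 1) (fun k => hZ k (i + 4) 1) (fun k => hcut k i) (h0 i)
    (E i) (E (i + 4)) (hE i) (hE (i + 4))
  have hM := fun i => cut_labels (fun k => Z k i 0) (fun k => Z k i 2) (fun k => Z k (i + 3) 2)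
    (fun k => hZ k i 0) (fun k => hZ k i 2) (fun k => hZ k (i + 3) 2) (fun k => (hpar k).h5 i)
    (h0 i) (F i) (F (i + 3)) (hF i) (hF (i + 3))
  have hne : ∀ i, (E i : ℕ) ≠ (E (i + 4) : ℕ) := fun i h => (hL i).1 (Fin.ext h)
  have hpair : ∀ i, ((E i : ℕ) = (F i : ℕ) ∧ (E (i + 4) : ℕ) = (F (i + 3) : ℕ)) ∨
      ((E i : ℕ) = (F (i + 3) : ℕ) ∧ (E (i + 4) : ℕ) = (F i : ℕ)) := by
    intro i
    rcases pair_eq (E i) (E (i + 4)) (F i) (F (i + 3)) (fun k => Z k i 0 = 1) (hL i).1 (hL i).2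
      (hM i).2 with h | h
    · exact Or.inl ⟨congrArg _ h.1, congrArg _ h.2⟩
    · exact Or.inr ⟨congrArg _ h.1, congrArg _ h.2⟩
  exact no_label (E 0) (E 1) (E 2) (E 3) (E 4) (F 0) (F 1) (F 2) (F 3) (F 4)
    (hne 0) (hne 1) (hne 2) (hne 3) (hne 4) (hpair 0) (hpair 1) (hpair 2) (hpair 3) (hpair 4)

theorem countP_eq_sum {α : Type*} (l : List α) (p : α → Bool) :
    l.countP p = ∑ k : Fin l.length, ind (p (l.get k) = true) := by
  induction l with
  | nil => rfl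
  | cons x l ih =>
    rw [List.countP_cons, ih]
    have : ∑ k : Fin (x :: l).length, ind (p ((x :: l).get k) = true) =
        ind (p x = true) + ∑ k : Fin l.length, ind (p (l.get k) = true) := by
      exact Fin.sum_univ_succ (n := l.length) (fun k => ind (p ((x :: l).get k) = true))
    rw [this]
    by_cases hx : p x = true
    · rw [ind_pos hx, if_pos hx]; ring
    · rw [ind_neg hx, if_neg hx]; ring

theorem map_sum_eq {α : Type*} (l : List α) (f : α → ℕ) :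
    (l.map f).sum = ∑ k : Fin l.length, f (l.get k) := by
  induction l with
  | nil => rfl
  | cons x l ih =>
    rw [List.map_cons, List.sum_cons, ih]
    exact (Fin.sum_univ_succ (n := l.length) (fun k => f ((x :: l).get k))).symm

/-- The lower bound. -/
theorem lower (F : List (Σ u : Fin 30, G.Walk u u)) (hcyc : ∀ c ∈ F, c.2.IsCycle)
    (x : Sym2 (Fin 30) → ℕ)
    (hx : ∀ e, x e = ∑ k : Fin F.length, ind (e ∈ (F.get k).2.edges))
    (hcov : ∀ e ∈ G.edgeSet, 1 ≤ x e) (ht : ∀ e ∈ G.edgeSet, x e ≤ 2)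
    (hlen : (F.map (fun c => c.2.length)).sum ≤ 62) : False := by
  have hZ : ∀ (k : Fin F.length) i t, zz (F.get k).2 i t ≤ 1 := fun k i t => ind_le _
  have hpar : ∀ k : Fin F.length, Par (zz (F.get k).2) := fun k =>
    par_zz _ (hcyc _ (List.get_mem F k))
  have hX : ∀ i t, 1 ≤ x (ed i t) ∧ x (ed i t) ≤ 2 := fun i t =>
    ⟨hcov _ (ed_mem i t), ht _ (ed_mem i t)⟩
  have hxz : ∀ i t, x (ed i t) = ∑ k : Fin F.length, zz (F.get k).2 i t := fun i t => hx _
  have hPX : Par (fun i t => x (ed i t)) := by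
    have key : ∀ g : Fin F.length → ℕ, (∀ k, Even (g k)) → Even (∑ k, g k) := fun g hg =>
      Finset.even_sum _ (fun k _ => hg k)
    constructor
    · intro i; simp only [hxz, ← Finset.sum_add_distrib]; exact key _ (fun k => (hpar k).h0 i)
    · intro i; simp only [hxz, ← Finset.sum_add_distrib]; exact key _ (fun k => (hpar k).h1 i)
    · intro i; simp only [hxz, ← Finset.sum_add_distrib]; exact key _ (fun k => (hpar k).h2 i)
    · intro i; simp only [hxz, ← Finset.sum_add_distrib]; exact key _ (fun k => (hpar k).h3 i)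
    · intro i; simp only [hxz, ← Finset.sum_add_distrib]; exact key _ (fun k => (hpar k).h4 i)
    · intro i; simp only [hxz, ← Finset.sum_add_distrib]; exact key _ (fun k => (hpar k).h5 i)
  have hS : ∑ i, ∑ t, x (ed i t) ≤ 62 := by
    refine le_trans ?_ hlen
    rw [map_sum_eq]
    calc ∑ i, ∑ t, x (ed i t) = ∑ i, ∑ t, ∑ k : Fin F.length, zz (F.get k).2 i t := by
          simp only [hxz]
      _ = ∑ k : Fin F.length, ∑ i, ∑ t, zz (F.get k).2 i t := by
          rw [Finset.sum_comm]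
          have h1 : ∀ i, ∑ t, ∑ k : Fin F.length, zz (F.get k).2 i t =
              ∑ k : Fin F.length, ∑ t, zz (F.get k).2 i t := fun i => Finset.sum_comm
          rw [Finset.sum_comm]
          simp only [h1]
          exact Finset.sum_comm
      _ ≤ ∑ k : Fin F.length, (F.get k).2.length := Finset.sum_le_sum (fun k _ => zz_sum_le _)
  have h := step2 _ hX hPX hS
  refine step3 (fun k => zz (F.get k).2) hZ hpar ?_ ?_ ?_
  · intro i; rw [← hxz]; exact (h i).1
  · intro i; rw [← hxz]; exact (h i).2.1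
  · intro i; rw [← hxz]; exact (h i).2.2

end Pool.Agent.H28.CC
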