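import Pool.Agent.H28.CycleCoverGraph

set_option autoImplicit false

/-! The explicit cycle cover of total length 62. -/

namespace Pool.Agent.H28.CC

open SimpleGraph

/-- Check that `a, l` is a walk ending at `b`. -/
def chk (a : Fin 30) : List (Fin 30) → Fin 30 → Bool
  | [], b => decide (a = b)
  | c :: l, b => adjB a c && chk c l b

/-- The walk. -/
def mk : (a : Fin 30) → (l : List (Fin 30)) → (b : Fin 30) → chk a l b = true → G.Walk a b
  | a, [], b, h => (SimpleGraph.Walk.nil : G.Walk a a).copy rfl (of_decide_eq_true h)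
  | a, c :: l, b, h =>
    SimpleGraph.Walk.cons (show G.Adj a c from (Bool.and_eq_true_iff.mp h).1)
      (mk c l b (Bool.and_eq_true_iff.mp h).2)

def edg (a : Fin 30) : List (Fin 30) → List (Sym2 (Fin 30))
  | [] => []
  | c :: l => s(a, c) :: edg c l

theorem mk_edges : ∀ (l : List (Fin 30)) (a b : Fin 30) (h : chk a l b = true),
    (mk a l b h).edges = edg a l := by
  intro l
  induction l with
  | nil => intro a b h; simp [mk, edg]
  | cons c l ih => intro a b h; simp [mk, edg, ih]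

theorem mk_support : ∀ (l : List (Fin 30)) (a b : Fin 30) (h : chk a l b = true),
    (mk a l b h).support = a :: l := by
  intro l
  induction l with
  | nil => intro a b h; simp [mk]
  | cons c l ih => intro a b h; simp [mk, ih]

theorem mk_length : ∀ (l : List (Fin 30)) (a b : Fin 30) (h : chk a l b = true),
    (mk a l b h).length = l.length := by
  intro l
  induction l with
  | nil => intro a b h; simp [mk]
  | cons c l ih => intro a b h; simp [mk, ih]

theorem mk_isCycle (l : List (Fin 30)) (a : Fin 30) (h : chk a l a = true)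
    (h1 : (edg a l).Nodup) (h2 : l ≠ []) (h3 : l.Nodup) : (mk a l a h).IsCycle := by
  rw [SimpleGraph.Walk.isCycle_def]
  refine ⟨?_, ?_, ?_⟩
  · rw [SimpleGraph.Walk.isTrail_def, mk_edges]; exact h1
  · intro hc
    have := congrArg SimpleGraph.Walk.length hc
    rw [mk_length] at this
    simp at this
    exact h2 this
  · rw [mk_support]; simpa using h3

def lA : List (Fin 30) := [0, 3, 1, 8, 7, 14, 15, 12, 17, 29, 24, 27, 26, 19, 22, 18, 23, 5]
def lB : List (Fin 30) := [1, 8, 9, 6, 11, 29, 24, 28, 25, 2]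
def lC : List (Fin 30) := [0, 4, 1, 8, 10, 6, 11, 23, 18, 21, 20, 13, 16, 12, 17, 5]
def l0 : List (Fin 30) := [3, 4, 2]
def l1 : List (Fin 30) := [9, 10, 7]
def l2 : List (Fin 30) := [15, 16, 14, 13]
def l3 : List (Fin 30) := [21, 22, 20, 19]
def l4 : List (Fin 30) := [27, 28, 26, 25]

def F0 : List (Σ u : Fin 30, G.Walk u u) :=
  [⟨5, mk 5 lA 5 (by decide +kernel)⟩, ⟨2, mk 2 lB 2 (by decide +kernel)⟩,
   ⟨5, mk 5 lC 5 (by decide +kernel)⟩, ⟨2, mk 2 l0 2 (by decide +kernel)⟩,
   ⟨7, mk 7 l1 7 (by decide +kernel)⟩, ⟨13, mk 13 l2 13 (by decide +kernel)⟩,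
   ⟨19, mk 19 l3 19 (by decide +kernel)⟩, ⟨25, mk 25 l4 25 (by decide +kernel)⟩]

theorem F0_cycle : ∀ c ∈ F0, c.2.IsCycle := by
  intro c hc
  simp only [F0, List.mem_cons, List.not_mem_nil, or_false] at hc
  rcases hc with rfl | rfl | rfl | rfl | rfl | rfl | rfl | rfl <;>
    exact mk_isCycle _ _ _ (by decide +kernel) (by decide) (by decide +kernel)

theorem F0_length : (F0.map (fun c => c.2.length)).sum = 62 := by
  simp [F0, mk_length, lA, lB, lC, l0, l1, l2, l3, l4]

def allEdges : List (Sym2 (Fin 30)) :=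
  edg 5 lA ++ edg 2 lB ++ edg 5 lC ++ edg 2 l0 ++ edg 7 l1 ++ edg 13 l2 ++ edg 19 l3 ++ edg 25 l4

theorem allEdges_cover : ∀ a b : Fin 30, adjB a b = true → s(a, b) ∈ allEdges := by
  decide +kernel

theorem F0_cover : ∀ e ∈ G.edgeSet, ∃ c ∈ F0, e ∈ c.2.edges := by
  intro e
  induction e using Sym2.ind with
  | _ a b =>
    intro he
    rw [SimpleGraph.mem_edgeSet] at he
    have h := allEdges_cover a b he
    simp only [allEdges, List.mem_append] at h
    rcases h with ((((((h | h) | h) | h) | h) | h) | h) | h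
    · exact ⟨⟨5, mk 5 lA 5 (by decide +kernel)⟩, by simp [F0], by rw [mk_edges]; exact h⟩
    · exact ⟨⟨2, mk 2 lB 2 (by decide +kernel)⟩, by simp [F0], by rw [mk_edges]; exact h⟩
    · exact ⟨⟨5, mk 5 lC 5 (by decide +kernel)⟩, by simp [F0], by rw [mk_edges]; exact h⟩
    · exact ⟨⟨2, mk 2 l0 2 (by decide +kernel)⟩, by simp [F0], by rw [mk_edges]; exact h⟩
    · exact ⟨⟨7, mk 7 l1 7 (by decide +kernel)⟩, by simp [F0], by rw [mk_edges]; exact h⟩
    · exact ⟨⟨13, mk 13 l2 13 (by decide +kernel)⟩, by simp [F0], by rw [mk_edges]; exact h⟩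
    · exact ⟨⟨19, mk 19 l3 19 (by decide +kernel)⟩, by simp [F0], by rw [mk_edges]; exact h⟩
    · exact ⟨⟨25, mk 25 l4 25 (by decide +kernel)⟩, by simp [F0], by rw [mk_edges]; exact h⟩

end Pool.Agent.H28.CC
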