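import Mathlib

set_option autoImplicit false

namespace Pool.Agent.H28.RD

open Finset

noncomputable def lv (t : ℝ) : ℤ := Int.log 2 t

lemma lv_le {t : ℝ} (ht : 0 < t) : (2 : ℝ) ^ lv t ≤ t := by
  have := Int.zpow_log_le_self (b := 2) (R := ℝ) (by norm_num) ht
  simpa [lv] using this

lemma lt_lv {t : ℝ} : t < (2 : ℝ) ^ (lv t + 1) := by
  have := Int.lt_zpow_succ_log_self (b := 2) (R := ℝ) (by norm_num) t
  simpa [lv] using this

lemma level_sum {α : Type*} [DecidableEq α] (G : Finset α) (g : α → ℝ) (hg : ∀ y ∈ G, 0 < g y)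
    (I : Finset ℤ) (k : ℤ) :
    ∑ i ∈ I, ((2 : ℝ) ^ (i + k)) ^ 2 * ((G.filter fun y => lv (g y) = i + k).card : ℝ) ≤
      ∑ y ∈ G, g y ^ 2 := by
  calc ∑ i ∈ I, ((2 : ℝ) ^ (i + k)) ^ 2 * ((G.filter fun y => lv (g y) = i + k).card : ℝ)
      ≤ ∑ i ∈ I, ∑ y ∈ G.filter (fun y => lv (g y) = i + k), g y ^ 2 := by
        apply Finset.sum_le_sum
        intro i _
        have : ∀ y ∈ G.filter (fun y => lv (g y) = i + k), ((2 : ℝ) ^ (i + k)) ^ 2 ≤ g y ^ 2 := by
          intro y hy
          obtain ⟨h1, h2⟩ := Finset.mem_filter.1 hy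
          have h3 := lv_le (hg y h1)
          rw [h2] at h3
          have : (0 : ℝ) ≤ 2 ^ (i + k) := by positivity
          gcongr
        have h := Finset.card_nsmul_le_sum _ _ _ this
        rw [nsmul_eq_mul] at h
        linarith
    _ = ∑ y ∈ G, ∑ i ∈ I, if lv (g y) = i + k then g y ^ 2 else 0 := by
        rw [Finset.sum_comm]
        apply Finset.sum_congr rfl
        intro i _
        rw [Finset.sum_filter]
    _ ≤ ∑ y ∈ G, g y ^ 2 := by
        apply Finset.sum_le_sum
        intro y _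
        rw [← Finset.sum_filter, Finset.sum_const, nsmul_eq_mul]
        have : (I.filter fun i => lv (g y) = i + k).card ≤ 1 := by
          rw [Finset.card_le_one]
          intro a ha b hb
          have h1 := (Finset.mem_filter.1 ha).2
          have h2 := (Finset.mem_filter.1 hb).2
          omega
        have h2 : ((I.filter fun i => lv (g y) = i + k).card : ℝ) ≤ 1 := by exact_mod_cast this
        nlinarith [sq_nonneg (g y)]

/-- the lemma of Bilu and Linial type -/
lemma BL {α β : Type*} [DecidableEq α] [DecidableEq β] (G : Finset α) (H : Finset β)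
    (M : α → β → ℝ) (hM : ∀ y z, 0 ≤ M y z) (a κ : ℝ) (hκ : 0 ≤ κ)
    (hrow : ∀ y ∈ G, ∑ z ∈ H, M y z ≤ a) (hcol : ∀ z ∈ H, ∑ y ∈ G, M y z ≤ a)
    (hcut : ∀ B ⊆ G, ∀ C ⊆ H, ∑ y ∈ B, ∑ z ∈ C, M y z ≤ κ * Real.sqrt ((B.card : ℝ) * C.card))
    (L : ℕ) (hL : a ≤ 2 ^ L) (g : α → ℝ) (h : β → ℝ) (hg : ∀ y ∈ G, 0 < g y)
    (hh : ∀ z ∈ H, 0 < h z) (hg1 : ∑ y ∈ G, g y ^ 2 ≤ 1) (hh1 : ∑ z ∈ H, h z ^ 2 ≤ 1) :
    ∑ y ∈ G, ∑ z ∈ H, M y z * (g y * h z) ≤ 2 + 4 * κ * (2 * L + 1) := by
  have hpt : ∀ y ∈ G, ∀ z ∈ H, g y * h z ≤ (2 ^ L : ℝ)⁻¹ * g y ^ 2 + (2 ^ L : ℝ)⁻¹ * h z ^ 2 +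
      ∑ k ∈ Finset.Icc (-(L : ℤ)) L, if lv (g y) = lv (h z) + k then g y * h z else 0 := by
    intro y hy z hz
    have gy := hg y hy
    have hz0 := hh z hz
    have p1 : 0 ≤ (2 ^ L : ℝ)⁻¹ * g y ^ 2 := by positivity
    have p2 : 0 ≤ (2 ^ L : ℝ)⁻¹ * h z ^ 2 := by positivity
    have p3 : 0 ≤ ∑ k ∈ Finset.Icc (-(L : ℤ)) L, if lv (g y) = lv (h z) + k then g y * h z else 0 := by
      apply Finset.sum_nonneg
      intro k _
      split_ifs
      · positivity
      · exact le_rfl
    by_cases h1 : lv (g y) - lv (h z) ∈ Finset.Icc (-(L : ℤ)) L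
    · have : g y * h z ≤ ∑ k ∈ Finset.Icc (-(L : ℤ)) L, if lv (g y) = lv (h z) + k then g y * h z else 0 := by
        have h2 := Finset.single_le_sum (f := fun k : ℤ => if lv (g y) = lv (h z) + k then g y * h z else 0)
          (s := Finset.Icc (-(L : ℤ)) L) (by
            intro k _
            split_ifs
            · positivity
            · exact le_rfl) h1
        simpa using h2
      linarith
    · rw [Finset.mem_Icc] at h1
      by_cases h2 : (L : ℤ) < lv (g y) - lv (h z)
      · -- g y large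
        have e1 := lv_le gy
        have e2 : h z < 2 ^ (lv (h z) + 1) := lt_lv
        have e3 : (2 : ℝ) ^ (lv (h z) + 1) * 2 ^ L ≤ 2 ^ lv (g y) := by
          rw [← zpow_natCast, ← zpow_add₀ (by norm_num)]
          apply zpow_le_zpow_right₀ (by norm_num)
          omega
        have e4 : h z * 2 ^ L ≤ g y := by
          have : (0 : ℝ) < 2 ^ L := by positivity
          nlinarith
        have e5 : g y * h z ≤ (2 ^ L : ℝ)⁻¹ * g y ^ 2 := by
          have : (0 : ℝ) < 2 ^ L := by positivity
          rw [inv_mul_eq_div, le_div_iff₀ this]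
          nlinarith
        linarith
      · have h3 : (L : ℤ) < lv (h z) - lv (g y) := by
          by_contra hcon
          apply h1
          constructor <;> omega
        have e1 := lv_le hz0
        have e2 : g y < 2 ^ (lv (g y) + 1) := lt_lv
        have e3 : (2 : ℝ) ^ (lv (g y) + 1) * 2 ^ L ≤ 2 ^ lv (h z) := by
          rw [← zpow_natCast, ← zpow_add₀ (by norm_num)]
          apply zpow_le_zpow_right₀ (by norm_num)
          omega
        have e4 : g y * 2 ^ L ≤ h z := by
          have : (0 : ℝ) < 2 ^ L := by positivity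
          nlinarith
        have e5 : g y * h z ≤ (2 ^ L : ℝ)⁻¹ * h z ^ 2 := by
          have : (0 : ℝ) < 2 ^ L := by positivity
          rw [inv_mul_eq_div, le_div_iff₀ this]
          nlinarith
        linarith
  -- the diagonal blocks
  have hk : ∀ k : ℤ, ∑ y ∈ G, ∑ z ∈ H, M y z * (if lv (g y) = lv (h z) + k then g y * h z else 0) ≤ 4 * κ := by
    intro k
    classical
    set I := H.image fun z => lv (h z) with hI
    have e1 : ∑ y ∈ G, ∑ z ∈ H, M y z * (if lv (g y) = lv (h z) + k then g y * h z else 0) =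
        ∑ i ∈ I, ∑ y ∈ G.filter (fun y => lv (g y) = i + k), ∑ z ∈ H.filter (fun z => lv (h z) = i + 0),
          M y z * (g y * h z) := by
      have : ∀ i ∈ I, ∑ y ∈ G.filter (fun y => lv (g y) = i + k), ∑ z ∈ H.filter (fun z => lv (h z) = i + 0),
          M y z * (g y * h z) = ∑ y ∈ G, ∑ z ∈ H.filter (fun z => lv (h z) = i),
          M y z * (if lv (g y) = lv (h z) + k then g y * h z else 0) := by
        intro i _
        rw [Finset.sum_filter]
        apply Finset.sum_congr rfl
        intro y _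
        simp only [add_zero]
        split_ifs with hy
        · apply Finset.sum_congr rfl
          intro z hz
          have hz2 := (Finset.mem_filter.1 hz).2
          rw [if_pos (by rw [hy, hz2])]
        · symm
          apply Finset.sum_eq_zero
          intro z hz
          have hz2 := (Finset.mem_filter.1 hz).2
          rw [if_neg (by rw [hz2]; exact hy), mul_zero]
      rw [Finset.sum_congr rfl this, Finset.sum_comm (s := I)]
      apply Finset.sum_congr rfl
      intro y _
      rw [Finset.sum_fiberwise_of_maps_to]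
      intro z hz
      exact Finset.mem_image_of_mem _ hz
    rw [e1]
    have e2 : ∀ i ∈ I, ∑ y ∈ G.filter (fun y => lv (g y) = i + k), ∑ z ∈ H.filter (fun z => lv (h z) = i + 0),
          M y z * (g y * h z) ≤
        2 * κ * (((2 : ℝ) ^ (i + k)) ^ 2 * ((G.filter fun y => lv (g y) = i + k).card : ℝ)) +
        2 * κ * (((2 : ℝ) ^ (i + 0)) ^ 2 * ((H.filter fun z => lv (h z) = i + 0).card : ℝ)) := by
      intro i _
      set B := G.filter (fun y => lv (g y) = i + k) with hB
      set C := H.filter (fun z => lv (h z) = i + 0) with hC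
      set u : ℝ := 2 ^ (i + k) with hu
      set v : ℝ := 2 ^ (i + 0) with hv
      have hu0 : 0 < u := by positivity
      have hv0 : 0 < v := by positivity
      have f1 : ∑ y ∈ B, ∑ z ∈ C, M y z * (g y * h z) ≤ ∑ y ∈ B, ∑ z ∈ C, M y z * (4 * (u * v)) := by
        apply Finset.sum_le_sum
        intro y hy
        apply Finset.sum_le_sum
        intro z hz
        obtain ⟨y1, y2⟩ := Finset.mem_filter.1 hy
        obtain ⟨z1, z2⟩ := Finset.mem_filter.1 hz
        have g1 : g y ≤ 2 * u := by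
          have := (lt_lv (t := g y)).le
          rw [y2, zpow_add₀ (by norm_num), zpow_one] at this
          linarith
        have g2 : h z ≤ 2 * v := by
          have := (lt_lv (t := h z)).le
          rw [z2, zpow_add₀ (by norm_num), zpow_one] at this
          linarith
        have g3 := (hg y y1).le
        have g4 := (hh z z1).le
        apply mul_le_mul_of_nonneg_left _ (hM y z)
        nlinarith [mul_le_mul g1 g2 g4 (by positivity)]
      have f2 : ∑ y ∈ B, ∑ z ∈ C, M y z * (4 * (u * v)) = (4 * (u * v)) * ∑ y ∈ B, ∑ z ∈ C, M y z := by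
        rw [Finset.mul_sum]
        apply Finset.sum_congr rfl
        intro y _
        rw [Finset.mul_sum]
        apply Finset.sum_congr rfl
        intro z _
        ring
      have f3 := hcut B (Finset.filter_subset _ _) C (Finset.filter_subset _ _)
      have f4 : Real.sqrt ((B.card : ℝ) * C.card) = Real.sqrt B.card * Real.sqrt C.card :=
        Real.sqrt_mul (by positivity) _
      have f5 : Real.sqrt (B.card : ℝ) ^ 2 = B.card := Real.sq_sqrt (by positivity)
      have f6 : Real.sqrt (C.card : ℝ) ^ 2 = C.card := Real.sq_sqrt (by positivity)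
      calc ∑ y ∈ B, ∑ z ∈ C, M y z * (g y * h z) ≤ (4 * (u * v)) * ∑ y ∈ B, ∑ z ∈ C, M y z := by
            rw [← f2]; exact f1
        _ ≤ (4 * (u * v)) * (κ * (Real.sqrt B.card * Real.sqrt C.card)) := by
            rw [← f4]
            apply mul_le_mul_of_nonneg_left f3 (by positivity)
        _ = 2 * κ * (2 * (u * Real.sqrt B.card) * (v * Real.sqrt C.card)) := by ring
        _ ≤ 2 * κ * ((u * Real.sqrt B.card) ^ 2 + (v * Real.sqrt C.card) ^ 2) := by
            apply mul_le_mul_of_nonneg_left _ (by positivity)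
            nlinarith [sq_nonneg (u * Real.sqrt B.card - v * Real.sqrt C.card)]
        _ = _ := by rw [mul_pow, mul_pow, f5, f6]; ring
    refine (Finset.sum_le_sum e2).trans ?_
    rw [Finset.sum_add_distrib, ← Finset.mul_sum, ← Finset.mul_sum]
    have e3 := level_sum G g hg I k
    have e4 := level_sum H h hh I 0
    nlinarith
  -- assemble
  have h2L : (0 : ℝ) < 2 ^ L := by positivity
  calc ∑ y ∈ G, ∑ z ∈ H, M y z * (g y * h z)
      ≤ ∑ y ∈ G, ∑ z ∈ H, (M y z * ((2 ^ L : ℝ)⁻¹ * g y ^ 2) + M y z * ((2 ^ L : ℝ)⁻¹ * h z ^ 2) +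
        ∑ k ∈ Finset.Icc (-(L : ℤ)) L, M y z * (if lv (g y) = lv (h z) + k then g y * h z else 0)) := by
        apply Finset.sum_le_sum
        intro y hy
        apply Finset.sum_le_sum
        intro z hz
        rw [← Finset.mul_sum, ← mul_add, ← mul_add]
        exact mul_le_mul_of_nonneg_left (hpt y hy z hz) (hM y z)
    _ = (∑ y ∈ G, ∑ z ∈ H, M y z * ((2 ^ L : ℝ)⁻¹ * g y ^ 2)) +
        (∑ y ∈ G, ∑ z ∈ H, M y z * ((2 ^ L : ℝ)⁻¹ * h z ^ 2)) +
        ∑ k ∈ Finset.Icc (-(L : ℤ)) L, ∑ y ∈ G, ∑ z ∈ H,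
          M y z * (if lv (g y) = lv (h z) + k then g y * h z else 0) := by
        rw [Finset.sum_comm (s := Finset.Icc (-(L : ℤ)) L)]
        rw [← Finset.sum_add_distrib, ← Finset.sum_add_distrib]
        apply Finset.sum_congr rfl
        intro y _
        rw [Finset.sum_comm (s := Finset.Icc (-(L : ℤ)) L)]
        rw [← Finset.sum_add_distrib, ← Finset.sum_add_distrib]
    _ ≤ 1 + 1 + ∑ k ∈ Finset.Icc (-(L : ℤ)) L, 4 * κ := by
        apply add_le_add
        apply add_le_add
        · calc ∑ y ∈ G, ∑ z ∈ H, M y z * ((2 ^ L : ℝ)⁻¹ * g y ^ 2)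
              = ∑ y ∈ G, ((2 ^ L : ℝ)⁻¹ * g y ^ 2) * ∑ z ∈ H, M y z := by
                apply Finset.sum_congr rfl
                intro y _
                rw [Finset.mul_sum]
                apply Finset.sum_congr rfl
                intro z _
                ring
            _ ≤ ∑ y ∈ G, ((2 ^ L : ℝ)⁻¹ * g y ^ 2) * 2 ^ L := by
                apply Finset.sum_le_sum
                intro y hy
                apply mul_le_mul_of_nonneg_left ((hrow y hy).trans hL) (by positivity)
            _ = ∑ y ∈ G, g y ^ 2 := by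
                apply Finset.sum_congr rfl
                intro y _
                field_simp
            _ ≤ 1 := hg1
        · rw [Finset.sum_comm]
          calc ∑ z ∈ H, ∑ y ∈ G, M y z * ((2 ^ L : ℝ)⁻¹ * h z ^ 2)
              = ∑ z ∈ H, ((2 ^ L : ℝ)⁻¹ * h z ^ 2) * ∑ y ∈ G, M y z := by
                apply Finset.sum_congr rfl
                intro y _
                rw [Finset.mul_sum]
                apply Finset.sum_congr rfl
                intro z _
                ring
            _ ≤ ∑ z ∈ H, ((2 ^ L : ℝ)⁻¹ * h z ^ 2) * 2 ^ L := by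
                apply Finset.sum_le_sum
                intro z hz
                apply mul_le_mul_of_nonneg_left ((hcol z hz).trans hL) (by positivity)
            _ = ∑ z ∈ H, h z ^ 2 := by
                apply Finset.sum_congr rfl
                intro y _
                field_simp
            _ ≤ 1 := hh1
        · exact Finset.sum_le_sum fun k _ => hk k
    _ = 2 + 4 * κ * (2 * L + 1) := by
        rw [Finset.sum_const, nsmul_eq_mul, Int.card_Icc]
        have : (((L : ℤ) + 1 - -(L : ℤ)).toNat : ℝ) = 2 * L + 1 := by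
          have h3 : ((L : ℤ) + 1 - -(L : ℤ)).toNat = 2 * L + 1 := by omega
          rw [h3]; push_cast; ring
        rw [this]; ring

/-! ### Groups -/

variable {Γ : Type} [Group Γ] [DecidableEq Γ]

/-- the (nonnegative) trilinear form -/
noncomputable def T (F G H : Finset Γ) (f g h : Γ → ℝ) : ℝ :=
  ∑ x ∈ F, ∑ y ∈ G, ∑ z ∈ H, if x * y * z = 1 then f x * g y * h z else 0

lemma sum_one_z (H : Finset Γ) (w : Γ) (φ : Γ → ℝ) (hφ : ∀ z, 0 ≤ φ z) :
    ∑ z ∈ H, (if w * z = 1 then φ z else 0) ≤ φ (w⁻¹) := by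
  have : ∀ z ∈ H, (if w * z = 1 then φ z else 0) = if z = w⁻¹ then φ (w⁻¹) else 0 := by
    intro z _
    by_cases h : z = w⁻¹
    · subst h; simp
    · have h2 : ¬ w * z = 1 := fun h3 => h (eq_inv_of_mul_eq_one_right h3)
      simp [h, h2]
  rw [Finset.sum_congr rfl this, Finset.sum_ite_eq']
  split_ifs
  · exact le_rfl
  · exact hφ _

lemma single_bound (G H : Finset Γ) (g h : Γ → ℝ) (x : Γ)
    (hg1 : ∑ y ∈ G, g y ^ 2 ≤ 1) (hh1 : ∑ z ∈ H, h z ^ 2 ≤ 1) :
    ∑ y ∈ G, ∑ z ∈ H, (if x * y * z = 1 then g y * h z else 0) ≤ 1 := by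
  have h1 : ∑ y ∈ G, ∑ z ∈ H, (if x * y * z = 1 then g y * h z else 0) ≤
      ∑ y ∈ G, ∑ z ∈ H, ((if x * y * z = 1 then g y ^ 2 / 2 else 0) +
        (if x * y * z = 1 then h z ^ 2 / 2 else 0)) := by
    apply Finset.sum_le_sum
    intro y _
    apply Finset.sum_le_sum
    intro z _
    split_ifs
    · nlinarith [sq_nonneg (g y - h z)]
    · simp
  have h2 : ∑ y ∈ G, ∑ z ∈ H, (if x * y * z = 1 then g y ^ 2 / 2 else 0) ≤ 1 / 2 := by
    calc ∑ y ∈ G, ∑ z ∈ H, (if x * y * z = 1 then g y ^ 2 / 2 else 0) ≤ ∑ y ∈ G, g y ^ 2 / 2 := by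
          apply Finset.sum_le_sum
          intro y _
          exact sum_one_z H (x * y) (fun _ => g y ^ 2 / 2) (fun _ => by positivity)
      _ = (∑ y ∈ G, g y ^ 2) / 2 := by rw [Finset.sum_div]
      _ ≤ 1 / 2 := by linarith
  have h3 : ∑ y ∈ G, ∑ z ∈ H, (if x * y * z = 1 then h z ^ 2 / 2 else 0) ≤ 1 / 2 := by
    rw [Finset.sum_comm]
    calc ∑ z ∈ H, ∑ y ∈ G, (if x * y * z = 1 then h z ^ 2 / 2 else 0) ≤ ∑ z ∈ H, h z ^ 2 / 2 := by
          apply Finset.sum_le_sum
          intro z _
          have : ∀ y ∈ G, (if x * y * z = 1 then h z ^ 2 / 2 else 0) =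
              if (z * x) * y = 1 then h z ^ 2 / 2 else 0 := by
            intro y _
            have : x * y * z = 1 ↔ (z * x) * y = 1 := by
              constructor
              · intro h
                have h4 := eq_inv_of_mul_eq_one_right h
                rw [h4]; group
              · intro h
                have h4 := eq_inv_of_mul_eq_one_right h
                rw [h4]; group
            simp only [this]
          rw [Finset.sum_congr rfl this]
          exact sum_one_z G (z * x) (fun _ => h z ^ 2 / 2) (fun _ => by positivity)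
      _ = (∑ z ∈ H, h z ^ 2) / 2 := by rw [Finset.sum_div]
      _ ≤ 1 / 2 := by linarith
  calc _ ≤ _ := h1
    _ = ∑ y ∈ G, ∑ z ∈ H, (if x * y * z = 1 then g y ^ 2 / 2 else 0) +
        ∑ y ∈ G, ∑ z ∈ H, (if x * y * z = 1 then h z ^ 2 / 2 else 0) := by
        rw [← Finset.sum_add_distrib]
        apply Finset.sum_congr rfl
        intro y _
        rw [← Finset.sum_add_distrib]
    _ ≤ 1 := by linarith

/-- the case of an indicator function -/
lemma indicator_bound (A : Finset Γ) (P : ℝ) (hP : 0 ≤ P) (J : ℕ) (hA : (A.card : ℝ) ≤ 2 ^ J)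
    (hT : ∀ B C : Finset Γ, ((((A ×ˢ B ×ˢ C).filter (fun t => t.1 * t.2.1 * t.2.2 = 1)).card : ℝ)
            ≤ P * Real.sqrt ((A.card : ℝ) * B.card * C.card)))
    (G H : Finset Γ) (g h : Γ → ℝ) (hg : ∀ y ∈ G, 0 < g y) (hh : ∀ z ∈ H, 0 < h z)
    (hg1 : ∑ y ∈ G, g y ^ 2 ≤ 1) (hh1 : ∑ z ∈ H, h z ^ 2 ≤ 1) :
    ∑ x ∈ A, ∑ y ∈ G, ∑ z ∈ H, (if x * y * z = 1 then g y * h z else 0) ≤
      Real.sqrt A.card * (2 + 4 * P * (2 * J + 1)) := by
  rcases A.eq_empty_or_nonempty with rfl | hne
  · simp
  have hA1 : (1 : ℝ) ≤ A.card := by exact_mod_cast hne.card_pos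
  have hs1 : 1 ≤ Real.sqrt A.card := by rw [Real.one_le_sqrt]; exact hA1
  let M : Γ → Γ → ℝ := fun y z => ∑ x ∈ A, if x * y * z = 1 then (1 : ℝ) else 0
  have key := BL G H M (fun y z => Finset.sum_nonneg fun x _ => by split_ifs <;> norm_num)
    (A.card : ℝ) (P * Real.sqrt A.card) (by positivity)
    (by
      intro y _
      simp only [M]
      rw [Finset.sum_comm]
      calc ∑ x ∈ A, ∑ z ∈ H, (if x * y * z = 1 then (1 : ℝ) else 0) ≤ ∑ x ∈ A, 1 := by
            apply Finset.sum_le_sum
            intro x _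
            exact sum_one_z H (x * y) (fun _ => 1) (fun _ => by norm_num)
        _ = A.card := by simp)
    (by
      intro z _
      simp only [M]
      rw [Finset.sum_comm]
      calc ∑ x ∈ A, ∑ y ∈ G, (if x * y * z = 1 then (1 : ℝ) else 0) ≤ ∑ x ∈ A, 1 := by
            apply Finset.sum_le_sum
            intro x _
            have : ∀ y ∈ G, (if x * y * z = 1 then (1 : ℝ) else 0) =
                if (z * x) * y = 1 then (1 : ℝ) else 0 := by
              intro y _
              have : x * y * z = 1 ↔ (z * x) * y = 1 := by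
                constructor
                · intro h
                  have h4 := eq_inv_of_mul_eq_one_right h
                  rw [h4]; group
                · intro h
                  have h4 := eq_inv_of_mul_eq_one_right h
                  rw [h4]; group
              simp only [this]
            rw [Finset.sum_congr rfl this]
            exact sum_one_z G (z * x) (fun _ => 1) (fun _ => by norm_num)
        _ = A.card := by simp)
    (by
      intro B _ C _
      have e : ∑ y ∈ B, ∑ z ∈ C, M y z =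
          (((A ×ˢ B ×ˢ C).filter (fun t => t.1 * t.2.1 * t.2.2 = 1)).card : ℝ) := by
        rw [Finset.card_filter]
        push_cast
        rw [Finset.sum_product]
        have : ∀ x ∈ A, (∑ y ∈ B ×ˢ C, if (x, y).1 * (x, y).2.1 * (x, y).2.2 = 1 then (1 : ℝ) else 0) =
            ∑ y ∈ B, ∑ z ∈ C, if x * y * z = 1 then (1 : ℝ) else 0 := by
          intro x _
          rw [Finset.sum_product]
        rw [Finset.sum_congr rfl this]
        simp only [M]
        rw [Finset.sum_comm (s := A)]
        apply Finset.sum_congr rfl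
        intro y _
        rw [Finset.sum_comm (s := A)]
      rw [e]
      refine (hT B C).trans (le_of_eq ?_)
      rw [mul_assoc, mul_assoc, Real.sqrt_mul (by positivity)])
    J hA g h hg hh hg1 hh1
  have e2 : ∑ x ∈ A, ∑ y ∈ G, ∑ z ∈ H, (if x * y * z = 1 then g y * h z else 0) =
      ∑ y ∈ G, ∑ z ∈ H, M y z * (g y * h z) := by
    rw [Finset.sum_comm]
    apply Finset.sum_congr rfl
    intro y _
    rw [Finset.sum_comm]
    apply Finset.sum_congr rfl
    intro z _
    simp only [M]
    rw [Finset.sum_mul]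
    apply Finset.sum_congr rfl
    intro x _
    split_ifs <;> simp
  rw [e2]
  refine key.trans ?_
  nlinarith

/-- the general bound for positive functions of norm at most one -/
lemma main_bound (P : ℝ) (hP : 0 ≤ P) (J : ℕ) (F : Finset Γ) (hF : (F.card : ℝ) ≤ 2 ^ J)
    (hT : ∀ A B C : Finset Γ, A ⊆ F →
      ((((A ×ˢ B ×ˢ C).filter (fun t => t.1 * t.2.1 * t.2.2 = 1)).card : ℝ)
            ≤ P * Real.sqrt ((A.card : ℝ) * B.card * C.card)))
    (G H : Finset Γ) (f g h : Γ → ℝ) (hf : ∀ x ∈ F, 0 < f x) (hg : ∀ y ∈ G, 0 < g y)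
    (hh : ∀ z ∈ H, 0 < h z) (hf1 : ∑ x ∈ F, f x ^ 2 ≤ 1)
    (hg1 : ∑ y ∈ G, g y ^ 2 ≤ 1) (hh1 : ∑ z ∈ H, h z ^ 2 ≤ 1) :
    ∑ x ∈ F, f x * (∑ y ∈ G, ∑ z ∈ H, (if x * y * z = 1 then g y * h z else 0)) ≤
      1 + (J + 1) * (2 * (2 + 4 * P * (2 * J + 1))) := by
  set Tx : Γ → ℝ := fun x => ∑ y ∈ G, ∑ z ∈ H, (if x * y * z = 1 then g y * h z else 0) with hTx
  have hTx0 : ∀ x, 0 ≤ Tx x := by
    intro x
    apply Finset.sum_nonneg
    intro y hy
    apply Finset.sum_nonneg
    intro z hz
    split_ifs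
    · exact (mul_pos (hg y hy) (hh z hz)).le
    · exact le_rfl
  have hTx1 : ∀ x, Tx x ≤ 1 := fun x => single_bound G H g h x hg1 hh1
  set Q : ℝ := 2 + 4 * P * (2 * J + 1) with hQ
  have hQ0 : 0 ≤ Q := by positivity
  have h2J : (0 : ℝ) < 2 ^ J := by positivity
  -- pointwise
  have hpt : ∀ x ∈ F, f x * Tx x ≤ (2 ^ J : ℝ)⁻¹ +
      ∑ i ∈ Finset.Icc (-(J : ℤ)) 0, if lv (f x) = i + 0 then f x * Tx x else 0 := by
    intro x hx
    have hfx := hf x hx
    have hfx1 : f x ≤ 1 := by
      have := Finset.single_le_sum (f := fun x => f x ^ 2) (s := F) (fun y _ => sq_nonneg _) hx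
      have h2 : f x ^ 2 ≤ 1 := this.trans hf1
      nlinarith
    have hlv0 : lv (f x) ≤ 0 := by
      have h1 := lv_le hfx
      by_contra hcon
      push Not at hcon
      have h2 : (2 : ℝ) ^ (1 : ℤ) ≤ 2 ^ lv (f x) := zpow_le_zpow_right₀ (by norm_num) (by omega)
      rw [zpow_one] at h2
      linarith
    have p3 : 0 ≤ ∑ i ∈ Finset.Icc (-(J : ℤ)) 0, if lv (f x) = i + 0 then f x * Tx x else 0 := by
      apply Finset.sum_nonneg
      intro k _
      split_ifs
      · exact mul_nonneg hfx.le (hTx0 x)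
      · exact le_rfl
    by_cases h1 : -(J : ℤ) ≤ lv (f x)
    · have hmem : lv (f x) ∈ Finset.Icc (-(J : ℤ)) 0 := Finset.mem_Icc.2 ⟨h1, hlv0⟩
      have h2 := Finset.single_le_sum (f := fun i : ℤ => if lv (f x) = i + 0 then f x * Tx x else 0)
          (s := Finset.Icc (-(J : ℤ)) 0) (by
            intro k _
            split_ifs
            · exact mul_nonneg hfx.le (hTx0 x)
            · exact le_rfl) hmem
      have h3 : f x * Tx x ≤ ∑ i ∈ Finset.Icc (-(J : ℤ)) 0, if lv (f x) = i + 0 then f x * Tx x else 0 := by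
        simpa using h2
      have h4 : 0 ≤ (2 ^ J : ℝ)⁻¹ := by positivity
      linarith
    · push Not at h1
      have h2 : f x < 2 ^ (lv (f x) + 1) := lt_lv
      have h3 : (2 : ℝ) ^ (lv (f x) + 1) ≤ 2 ^ (-(J : ℤ)) :=
        zpow_le_zpow_right₀ (by norm_num) (by omega)
      rw [zpow_neg, zpow_natCast] at h3
      have h4 : f x * Tx x ≤ (2 ^ J : ℝ)⁻¹ := by
        have := hTx0 x
        have := hTx1 x
        nlinarith
      linarith
  have hlev : ∀ i : ℤ, ∑ x ∈ F, (if lv (f x) = i + 0 then f x * Tx x else 0) ≤ 2 * Q := by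
    intro i
    rw [← Finset.sum_filter]
    set A := F.filter (fun x => lv (f x) = i + 0) with hA
    have hAF : A ⊆ F := Finset.filter_subset _ _
    have hAcard : (A.card : ℝ) ≤ 2 ^ J := by
      refine le_trans ?_ hF
      exact_mod_cast Finset.card_le_card hAF
    set u : ℝ := 2 ^ (i + 0) with hu
    have hu0 : 0 < u := by positivity
    have h1 : ∑ x ∈ A, f x * Tx x ≤ ∑ x ∈ A, (2 * u) * Tx x := by
      apply Finset.sum_le_sum
      intro x hx
      obtain ⟨x1, x2⟩ := Finset.mem_filter.1 hx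
      have := (lt_lv (t := f x)).le
      rw [x2, zpow_add₀ (by norm_num), zpow_one] at this
      exact mul_le_mul_of_nonneg_right (by linarith) (hTx0 x)
    have h2 := indicator_bound A P hP J hAcard (fun B C => hT A B C hAF) G H g h hg hh hg1 hh1
    have h3 := level_sum F f hf {i} 0
    rw [Finset.sum_singleton] at h3
    have h4 : (u * Real.sqrt A.card) ^ 2 ≤ 1 := by
      rw [mul_pow, Real.sq_sqrt (by positivity)]
      exact h3.trans hf1
    have h5 : u * Real.sqrt A.card ≤ 1 := by
      have : 0 ≤ u * Real.sqrt A.card := by positivity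
      nlinarith
    calc ∑ x ∈ A, f x * Tx x ≤ (2 * u) * ∑ x ∈ A, Tx x := by rw [Finset.mul_sum]; exact h1
      _ ≤ (2 * u) * (Real.sqrt A.card * Q) := mul_le_mul_of_nonneg_left h2 (by positivity)
      _ = 2 * ((u * Real.sqrt A.card) * Q) := by ring
      _ ≤ 2 * (1 * Q) := by gcongr
      _ = 2 * Q := by ring
  calc ∑ x ∈ F, f x * Tx x ≤ ∑ x ∈ F, ((2 ^ J : ℝ)⁻¹ +
      ∑ i ∈ Finset.Icc (-(J : ℤ)) 0, if lv (f x) = i + 0 then f x * Tx x else 0) :=
        Finset.sum_le_sum hpt
    _ = F.card * (2 ^ J : ℝ)⁻¹ + ∑ i ∈ Finset.Icc (-(J : ℤ)) 0,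
        ∑ x ∈ F, (if lv (f x) = i + 0 then f x * Tx x else 0) := by
        rw [Finset.sum_add_distrib, Finset.sum_const, nsmul_eq_mul, Finset.sum_comm]
    _ ≤ 1 + ∑ i ∈ Finset.Icc (-(J : ℤ)) 0, 2 * Q := by
        apply add_le_add
        · rw [← div_eq_mul_inv, div_le_one h2J]
          exact hF
        · exact Finset.sum_le_sum fun i _ => hlev i
    _ = 1 + (J + 1) * (2 * Q) := by
        rw [Finset.sum_const, nsmul_eq_mul, Int.card_Icc]
        have : ((0 + 1 - -(J : ℤ)).toNat : ℝ) = J + 1 := by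
          have h3 : (0 + 1 - -(J : ℤ)).toNat = J + 1 := by omega
          rw [h3]; push_cast; ring
        rw [this]

end Pool.Agent.H28.RD
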