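import Mathlib

namespace Pool.Agent.H28.SmallInt

open Finset

/-! ### The functional two-set inequality on the cube -/

lemma two_by_two (K E a0 a1 b0 b1 : ℝ) (hK : 0 ≤ K) (hE : 0 < E) (ha0 : 0 ≤ a0) (ha1 : 0 ≤ a1)
    (hb0 : 0 ≤ b0) (hb1 : 0 ≤ b1) (h00 : a0 * b0 ≤ K) (h11 : a1 * b1 ≤ K)
    (h01 : a0 * b1 ≤ K * E) (h10 : a1 * b0 ≤ K * E) :
    (a0 + a1) * (b0 + b1) ≤ K * (2 + E + E⁻¹) := by
  rcases hK.eq_or_lt with h | hKpos
  · subst h
    nlinarith [mul_nonneg ha0 hb0, mul_nonneg ha0 hb1, mul_nonneg ha1 hb0, mul_nonneg ha1 hb1]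
  · have hxy : (a0 * b1) * (a1 * b0) ≤ K * K := by
      calc (a0 * b1) * (a1 * b0) = (a0 * b0) * (a1 * b1) := by ring
        _ ≤ K * K := mul_le_mul h00 h11 (mul_nonneg ha1 hb1) hK
    have h1 : 0 ≤ (K * E - a0 * b1) * (K * E - a1 * b0) :=
      mul_nonneg (by linarith) (by linarith)
    have h2 : (a0 * b1 + a1 * b0) * (K * E) ≤ (K * (E + E⁻¹)) * (K * E) := by
      have : (K * (E + E⁻¹)) * (K * E) = K * E * (K * E) + K * K := by
        field_simp
      rw [this]
      nlinarith
    have h3 : a0 * b1 + a1 * b0 ≤ K * (E + E⁻¹) :=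
      le_of_mul_le_mul_right h2 (mul_pos hKpos hE)
    nlinarith

lemma cube_ineq (s : ℝ) : ∀ (n : ℕ) (M : ℝ) (f g : (Fin n → Bool) → ℝ), (∀ x, 0 ≤ f x) → (∀ x, 0 ≤ g x) →
    (∀ x y, f x * g y ≤ M * (Real.exp s) ^ ((univ.filter fun i => x i ≠ y i).card)) →
    (∑ x, f x) * (∑ y, g y) ≤ M * (2 + Real.exp s + (Real.exp s)⁻¹) ^ n := by
  intro n
  induction n with
  | zero =>
    intro M f g hf hg h
    rw [Fintype.sum_unique, Fintype.sum_unique, pow_zero, mul_one]
    refine (h _ _).trans (le_of_eq ?_)
    simp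
  | succ n ih =>
    intro M f g hf hg h
    have hM : 0 ≤ M := by
      have := h (fun _ => true) (fun _ => true)
      simp at this
      exact le_trans (mul_nonneg (hf _) (hg _)) this
    have hsum : ∀ F : (Fin (n + 1) → Bool) → ℝ,
        ∑ x, F x = ∑ x, F (Fin.cons false x) + ∑ x, F (Fin.cons true x) := by
      intro F
      rw [← (Fin.consEquiv (fun _ : Fin (n + 1) => Bool)).sum_comp F, Fintype.sum_prod_type]
      rw [Fintype.sum_bool, add_comm]
      rfl
    have hd : ∀ (a b : Bool) (x y : Fin n → Bool),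
        (univ.filter fun i => (Fin.cons a x : Fin (n + 1) → Bool) i ≠ (Fin.cons b y : Fin (n + 1) → Bool) i).card
          = (if a ≠ b then 1 else 0) + (univ.filter fun i => x i ≠ y i).card := by
      intro a b x y
      rw [Finset.card_filter, Finset.card_filter, Fin.sum_univ_succ]
      simp
    rw [hsum f, hsum g]
    have hE : 0 < Real.exp s := Real.exp_pos s
    have key : ∀ a b : Bool, (∑ x, f (Fin.cons a x)) * (∑ y, g (Fin.cons b y)) ≤
        (M * (if a ≠ b then Real.exp s else 1)) * (2 + Real.exp s + (Real.exp s)⁻¹) ^ n := by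
      intro a b
      apply ih
      · intro x; exact hf _
      · intro x; exact hg _
      · intro x y
        have := h (Fin.cons a x) (Fin.cons b y)
        rw [hd, pow_add] at this
        refine this.trans (le_of_eq ?_)
        by_cases hab : a ≠ b
        · simp [hab]; ring
        · simp [hab]
    have k00 := key false false
    have k01 := key false true
    have k10 := key true false
    have k11 := key true true
    simp only [ne_eq, not_true_eq_false, if_false, mul_one, Bool.false_eq_true, not_false_eq_true,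
      if_true, Bool.true_eq_false] at k00 k01 k10 k11
    have := two_by_two (M * (2 + Real.exp s + (Real.exp s)⁻¹) ^ n) (Real.exp s)
      (∑ x, f (Fin.cons false x)) (∑ x, f (Fin.cons true x))
      (∑ x, g (Fin.cons false x)) (∑ x, g (Fin.cons true x)) (by positivity) hE
      (sum_nonneg fun x _ => hf _) (sum_nonneg fun x _ => hf _)
      (sum_nonneg fun x _ => hg _) (sum_nonneg fun x _ => hg _) k00 k11
      (by rw [mul_right_comm]; exact k01) (by rw [mul_right_comm]; exact k10)
    rw [pow_succ]
    linarith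

/-- families on the cube with pairwise intersections `≥ η n` are exponentially small -/
lemma family_bound (n : ℕ) (η : ℝ) (hη : 0 ≤ η) (F : Finset (Fin n → Bool))
    (hF : ∀ x ∈ F, ∀ y ∈ F, η * n ≤ ((univ.filter fun i => x i = true ∧ y i = true).card : ℝ)) :
    (F.card : ℝ) ≤ 2 ^ n * Real.exp (-(η ^ 2 / 2) * n) := by
  classical
  set s : ℝ := 2 * η with hs
  have hs0 : 0 ≤ s := by positivity
  let f : (Fin n → Bool) → ℝ := fun x => if x ∈ F then 1 else 0
  let g : (Fin n → Bool) → ℝ := fun x => if (fun i => !(x i)) ∈ F then 1 else 0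
  have hf : ∑ x, f x = F.card := by simp [f]
  have hg : ∑ x, g x = F.card := by
    rw [← hf]
    let e : (Fin n → Bool) ≃ (Fin n → Bool) :=
      ⟨fun x i => !(x i), fun x i => !(x i), fun x => by simp, fun x => by simp⟩
    exact e.sum_comp f
  have hfg := cube_ineq s n (Real.exp (-(s * (η * n)))) f g
    (fun x => by simp only [f]; split_ifs <;> norm_num)
    (fun x => by simp only [g]; split_ifs <;> norm_num)
    (by
      intro x y
      by_cases hx : x ∈ F
      · by_cases hy : (fun i => !(y i)) ∈ F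
        · have h1 : f x * g y = 1 := by simp [f, g, hx, hy]
          rw [h1, ← Real.exp_nat_mul, ← Real.exp_add]
          apply Real.one_le_exp
          have h2 := hF x hx _ hy
          have h3 : ((univ.filter fun i => x i = true ∧ (!(y i)) = true).card : ℝ) ≤
              ((univ.filter fun i => x i ≠ y i).card : ℝ) := by
            exact_mod_cast Finset.card_le_card (by
              intro i hi
              simp only [mem_filter, mem_univ, true_and] at hi ⊢
              rw [hi.1]
              intro h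
              rw [← h] at hi
              simp at hi)
          have : s * (η * n) ≤ s * ((univ.filter fun i => x i ≠ y i).card : ℝ) :=
            mul_le_mul_of_nonneg_left (h2.trans h3) hs0
          linarith
        · have h1 : f x * g y = 0 := by simp [g, hy]
          rw [h1]; positivity
      · have h1 : f x * g y = 0 := by simp [f, hx]
        rw [h1]; positivity)
  rw [hf, hg] at hfg
  -- the constant
  have hcosh : 2 + Real.exp s + (Real.exp s)⁻¹ ≤ 4 * Real.exp (η ^ 2) := by
    have h1 : 2 + Real.exp s + (Real.exp s)⁻¹ = (2 * Real.cosh η) ^ 2 := by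
      rw [← Real.exp_neg, Real.cosh_eq, hs]
      have : Real.exp (2 * η) = Real.exp η * Real.exp η := by rw [← Real.exp_add]; ring_nf
      rw [this]
      have : Real.exp (-(2 * η)) = Real.exp (-η) * Real.exp (-η) := by
        rw [← Real.exp_add]; ring_nf
      rw [this]
      have h : Real.exp η * Real.exp (-η) = 1 := by rw [← Real.exp_add]; simp
      nlinarith
    rw [h1]
    have h2 := Real.cosh_le_exp_half_sq η
    have h3 : 0 ≤ Real.cosh η := (Real.cosh_pos η).le
    calc (2 * Real.cosh η) ^ 2 = 4 * (Real.cosh η * Real.cosh η) := by ring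
      _ ≤ 4 * (Real.exp (η ^ 2 / 2) * Real.exp (η ^ 2 / 2)) := by gcongr
      _ = 4 * Real.exp (η ^ 2) := by rw [← Real.exp_add]; ring_nf
  have h4 : (F.card : ℝ) * F.card ≤ (2 ^ n * Real.exp (-(η ^ 2 / 2) * n)) * (2 ^ n * Real.exp (-(η ^ 2 / 2) * n)) := by
    refine hfg.trans ?_
    calc Real.exp (-(s * (η * n))) * (2 + Real.exp s + (Real.exp s)⁻¹) ^ n
        ≤ Real.exp (-(s * (η * n))) * (4 * Real.exp (η ^ 2)) ^ n := by gcongr
      _ = (4 : ℝ) ^ n * (Real.exp (-(s * (η * n))) * Real.exp (η ^ 2) ^ n) := by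
          rw [mul_pow]; ring
      _ = (4 : ℝ) ^ n * Real.exp (-(s * (η * n)) + n * η ^ 2) := by
          rw [← Real.exp_nat_mul, ← Real.exp_add]
      _ = (2 ^ n * Real.exp (-(η ^ 2 / 2) * n)) * (2 ^ n * Real.exp (-(η ^ 2 / 2) * n)) := by
          have : (4 : ℝ) ^ n = 2 ^ n * 2 ^ n := by rw [← mul_pow]; norm_num
          rw [this]
          have h5 : Real.exp (-(s * (η * n)) + n * η ^ 2) =
              Real.exp (-(η ^ 2 / 2) * n) * Real.exp (-(η ^ 2 / 2) * n) := by
            rw [← Real.exp_add, hs]; ring_nf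
          rw [h5]; ring
  by_contra hcon
  push Not at hcon
  have hpos : 0 ≤ 2 ^ n * Real.exp (-(η ^ 2 / 2) * n) := by positivity
  nlinarith [mul_lt_mul'' hcon hcon hpos hpos]

/-! ### The lower bound -/

/-- number of `true` coordinates -/
def cnt {n : ℕ} (x : Fin n → Bool) : ℕ := (univ.filter fun i => x i = true).card

lemma cnt_not {n : ℕ} (x : Fin n → Bool) : cnt (fun i => !(x i)) + cnt x = n := by
  unfold cnt
  have := Finset.card_filter_add_card_filter_not (s := (univ : Finset (Fin n))) (fun i => x i = true)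
  rw [Finset.card_univ, Fintype.card_fin] at this
  have h2 : (univ.filter fun i => (!(x i)) = true) = (univ.filter fun i => ¬ x i = true) := by
    ext i; simp
  rw [h2]
  omega

lemma half (n : ℕ) (hn : Odd n) :
    2 ^ n ≤ 2 * (univ.filter fun x : Fin n → Bool => n < 2 * cnt x).card := by
  classical
  have h1 := Finset.card_filter_add_card_filter_not (s := (univ : Finset (Fin n → Bool)))
    (fun x => n < 2 * cnt x)
  have h2 : (univ.filter fun x : Fin n → Bool => ¬ n < 2 * cnt x).card ≤
      (univ.filter fun x : Fin n → Bool => n < 2 * cnt x).card := by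
    apply Finset.card_le_card_of_injOn (fun x i => !(x i))
    · intro x hx
      simp only [coe_filter, mem_univ, true_and, Set.mem_ofPred_eq] at hx ⊢
      have := cnt_not x
      obtain ⟨j, hj⟩ := hn
      omega
    · intro x _ y _ h
      funext i
      have := congrFun h i
      simpa using this
  have h3 : (univ : Finset (Fin n → Bool)).card = 2 ^ n := by simp
  omega

/-- blow-up of a 0/1 vector: `q` copies of each coordinate and `r` extra points -/
def blow {N : ℕ} (q r : ℕ) (x : Fin N → Bool) : Finset ((Fin N × Fin q) ⊕ Fin r) :=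
  univ.filter fun s => Sum.elim (fun p : Fin N × Fin q => x p.1) (fun _ => true) s = true

lemma card_blow {N : ℕ} (q r : ℕ) (x : Fin N → Bool) : (blow q r x).card = q * cnt x + r := by
  unfold blow cnt
  rw [Finset.card_filter, Fintype.sum_sum_type, Fintype.sum_prod_type, Finset.card_filter,
    Finset.mul_sum]
  simp only [Sum.elim_inl, Sum.elim_inr, if_true, Finset.sum_const, Finset.card_univ,
    Fintype.card_fin, smul_eq_mul, mul_one]
  congr 1
  apply Finset.sum_congr rfl
  intro i _
  by_cases h : x i = true <;> simp [h]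

lemma blow_inter {N : ℕ} (q r : ℕ) (x y : Fin N → Bool) :
    blow q r x ∩ blow q r y = blow q r (fun i => x i && y i) := by
  ext s
  unfold blow
  rcases s with s | s <;> simp

theorem lower (c ε : ℝ) (hc : c ≤ 1 / 2) (hε : 0 < ε) :
    ∃ δ : ℝ, 0 < δ ∧ ∃ K : ℝ, 0 < K ∧ ∀ m : ℕ, 2 ≤ m → ∀ n : ℕ, K * Real.log m ≤ n →
      ∃ A : Fin m → Finset (Fin n), (∀ k, c * n < (A k).card) ∧
        ∀ k : ℕ, ∀ C : Fin m → Fin k,
          (∀ i j, i ≠ j → ((A i ∩ A j).card : ℝ) < ε * n → C i ≠ C j) → δ * (m : ℝ) ^ δ ≤ k := by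
  classical
  -- reduce `ε`
  set ε' := min ε (1 / 2) with hε'
  have hε'0 : 0 < ε' := lt_min hε (by norm_num)
  have hε'1 : ε' ≤ 1 / 2 := min_le_right _ _
  have hε'2 : ε' ≤ ε := min_le_left _ _
  set η := ε' / 2 with hη
  have hη0 : 0 < η := by positivity
  have hη1 : η ≤ 1 / 4 := by rw [hη]; linarith
  refine ⟨η ^ 2 / 2, by positivity, 4 / ε', by positivity, ?_⟩
  intro m hm n hn
  have hm0 : (0 : ℝ) < m := by positivity
  have hm2 : (2 : ℝ) ≤ m := by exact_mod_cast hm
  have hlog2 : 0.5 < Real.log 2 := by have := Real.log_two_gt_d9; linarith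
  have hlogm : 0 < Real.log m := Real.log_pos (by linarith)
  -- the odd number N
  obtain ⟨N, hNodd, hN1, hN2⟩ : ∃ N : ℕ, Odd N ∧ 2 ^ N ≤ m ∧ m < 2 ^ (N + 2) := by
    have h1 : 1 ≤ Nat.log 2 m := Nat.log_pos (by norm_num) hm
    have h2 := Nat.pow_log_le_self 2 (x := m) (by omega)
    have h3 := Nat.lt_pow_succ_log_self (b := 2) (by norm_num) m
    rcases Nat.even_or_odd (Nat.log 2 m) with he | ho
    · refine ⟨Nat.log 2 m - 1, ?_, ?_, ?_⟩
      · obtain ⟨j, hj⟩ := he
        exact ⟨j - 1, by omega⟩
      · exact le_trans (Nat.pow_le_pow_right (by norm_num) (by omega)) h2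
      · refine lt_of_lt_of_le h3 (Nat.pow_le_pow_right (by norm_num) (by omega))
    · refine ⟨Nat.log 2 m, ho, h2, ?_⟩
      refine lt_of_lt_of_le h3 (Nat.pow_le_pow_right (by norm_num) (by omega))
  have hNpos : 0 < N := hNodd.pos
  have hNlog : (N : ℝ) * Real.log 2 ≤ Real.log m := by
    rw [← Real.log_pow]
    apply Real.log_le_log (by positivity)
    exact_mod_cast hN1
  have hNlog2 : Real.log m < (N + 2) * Real.log 2 := by
    have : ((N : ℝ) + 2) = ((N + 2 : ℕ) : ℝ) := by push_cast; ring
    rw [this, ← Real.log_pow]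
    apply Real.log_lt_log hm0
    exact_mod_cast hN2
  have hNn : (N : ℝ) ≤ η * n := by
    have h1 : (N : ℝ) ≤ 2 * Real.log m := by
      nlinarith [(Nat.cast_nonneg N : (0 : ℝ) ≤ N)]
    have h2 : η * (4 / ε' * Real.log m) ≤ η * n := mul_le_mul_of_nonneg_left hn hη0.le
    have h3 : η * (4 / ε' * Real.log m) = 2 * Real.log m := by
      rw [hη]; field_simp; ring
    linarith
  have hN0 : (0 : ℝ) < N := by exact_mod_cast hNpos
  have hn0 : (0 : ℝ) < n := by
    by_contra h
    push Not at h
    nlinarith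
  -- the blow-up parameters
  set q := n / N with hq
  set r := n % N with hr
  have hqr : N * q + r = n := Nat.div_add_mod n N
  have hrN : r < N := Nat.mod_lt n hNpos
  have hNleN : N ≤ n := by
    have : (N : ℝ) ≤ n := by nlinarith
    exact_mod_cast this
  have hq1 : 1 ≤ q := (Nat.one_le_div_iff hNpos).2 hNleN
  have hq1' : (1 : ℝ) ≤ q := by exact_mod_cast hq1
  have hqr' : (N : ℝ) * q + r = n := by exact_mod_cast hqr
  have hrN' : (r : ℝ) < N := by exact_mod_cast hrN
  let e : ((Fin N × Fin q) ⊕ Fin r) ≃ Fin n := Fintype.equivOfCardEq (by simp [hqr])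
  -- the vertex set
  let V : Finset (Fin N → Bool) := univ.filter fun x => N < 2 * cnt x
  have hV : 2 ^ N ≤ 2 * V.card := half N hNodd
  have hVm : V.card ≤ m := by
    have : V.card ≤ 2 ^ N := by
      have := Finset.card_le_univ V
      simpa using this
    omega
  have hVne : V.Nonempty := by
    rw [← Finset.card_pos]
    have : 0 < 2 ^ N := by positivity
    omega
  obtain ⟨π, hπ⟩ : ∃ π : Fin m → V, Function.Surjective π := by
    have : Nonempty V := hVne.to_subtype
    have : Fintype.card V ≤ Fintype.card (Fin m) := by simpa using hVm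
    obtain ⟨emb⟩ := Function.Embedding.nonempty_of_card_le this
    exact ⟨Function.invFun emb, Function.invFun_surjective emb.injective⟩
  let A : Fin m → Finset (Fin n) := fun k => (blow q r (π k).1).map e.toEmbedding
  have hA : ∀ k, ((A k).card : ℝ) = q * cnt (π k).1 + r := by
    intro k
    simp only [A]
    rw [Finset.card_map, card_blow]
    push_cast; ring
  have hAA : ∀ i j, ((A i ∩ A j).card : ℝ) = q * cnt (fun t => (π i).1 t && (π j).1 t) + r := by
    intro i j
    simp only [A]
    rw [← Finset.map_inter, Finset.card_map, blow_inter, card_blow]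
    push_cast; ring
  have hbig : ∀ x ∈ V, (n : ℝ) / 2 < q * cnt x + r := by
    intro x hx
    have h1 : N < 2 * cnt x := (Finset.mem_filter.1 hx).2
    have h2 : (N : ℝ) < 2 * cnt x := by exact_mod_cast h1
    have h3 : (0 : ℝ) ≤ r := Nat.cast_nonneg r
    nlinarith
  refine ⟨A, ?_, ?_⟩
  · intro k
    rw [hA]
    refine lt_of_le_of_lt ?_ (hbig _ (π k).2)
    nlinarith
  · intro k C hC
    -- colour classes
    let F : Fin k → Finset (Fin N → Bool) := fun a =>
      V.filter fun x => ∃ j : Fin m, (π j).1 = x ∧ C j = a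
    have hcover : V ⊆ univ.biUnion F := by
      intro x hx
      obtain ⟨j, hj⟩ := hπ ⟨x, hx⟩
      simp only [mem_biUnion, mem_univ, true_and, F, mem_filter]
      exact ⟨C j, hx, j, by rw [hj], rfl⟩
    have hF : ∀ a, ((F a).card : ℝ) ≤ 2 ^ N * Real.exp (-(η ^ 2 / 2) * N) := by
      intro a
      apply family_bound N η hη0.le
      intro x hx y hy
      obtain ⟨hxV, j, hj, hja⟩ := (Finset.mem_filter.1 hx)
      obtain ⟨hyV, j', hj', hja'⟩ := (Finset.mem_filter.1 hy)
      have hcnt : ((univ.filter fun i => x i = true ∧ y i = true).card : ℝ) =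
          (cnt (fun t => x t && y t) : ℝ) := by
        unfold cnt
        congr 2
        ext i; simp
      rw [hcnt]
      have hmain : ε' * n ≤ q * cnt (fun t => x t && y t) + r := by
        by_cases hjj : j = j'
        · subst hjj
          have hxy : x = y := by rw [← hj, ← hj']
          subst hxy
          have h1 := hbig x hxV
          have h2 : (fun t => x t && x t) = x := by funext t; simp
          rw [h2]
          nlinarith
        · by_contra hlt
          push Not at hlt
          apply hC j j' hjj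
          · rw [hAA, hj, hj']
            nlinarith
          · rw [hja, hja']
      have h1 : η * n ≤ q * cnt (fun t => x t && y t) := by
        have : ε' = 2 * η := by rw [hη]; ring
        rw [this] at hmain
        linarith
      have h2 : η * (N * q) ≤ q * cnt (fun t => x t && y t) := by
        have h3 : (0 : ℝ) ≤ r := Nat.cast_nonneg r
        refine le_trans ?_ h1
        apply mul_le_mul_of_nonneg_left _ hη0.le
        linarith
      have h3 : q * (η * N) ≤ q * (cnt (fun t => x t && y t) : ℝ) := by linarith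
      exact le_of_mul_le_mul_left h3 (by linarith)
    have h1 : (V.card : ℝ) ≤ k * (2 ^ N * Real.exp (-(η ^ 2 / 2) * N)) := by
      calc (V.card : ℝ) ≤ ((univ.biUnion F).card : ℝ) := by exact_mod_cast Finset.card_le_card hcover
        _ ≤ ∑ a, ((F a).card : ℝ) := by exact_mod_cast Finset.card_biUnion_le
        _ ≤ ∑ a : Fin k, (2 ^ N * Real.exp (-(η ^ 2 / 2) * N)) := Finset.sum_le_sum fun a _ => hF a
        _ = k * (2 ^ N * Real.exp (-(η ^ 2 / 2) * N)) := by simp
    have h2 : ((2 : ℝ) ^ N) ≤ 2 * V.card := by exact_mod_cast hV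
    have h3 : (1 : ℝ) ≤ 2 * k * Real.exp (-(η ^ 2 / 2) * N) := by
      have h4 : (0 : ℝ) < 2 ^ N := by positivity
      have h5 : (2 : ℝ) ^ N * 1 ≤ 2 ^ N * (2 * k * Real.exp (-(η ^ 2 / 2) * N)) := by
        nlinarith
      exact le_of_mul_le_mul_left h5 h4
    -- conclude
    have h4 : Real.exp ((η ^ 2 / 2) * N) ≤ 2 * k := by
      have h5 := mul_le_mul_of_nonneg_right h3 (Real.exp_pos ((η ^ 2 / 2) * N)).le
      rw [one_mul, mul_assoc (2 * (k : ℝ)), ← Real.exp_add] at h5
      simpa using h5
    have h5 : (m : ℝ) ^ (η ^ 2 / 2) = Real.exp ((η ^ 2 / 2) * Real.log m) := by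
      rw [Real.rpow_def_of_pos hm0, mul_comm]
    have h6 : (η ^ 2 / 2) * Real.log m ≤ (η ^ 2 / 2) * N + η ^ 2 := by
      have hl2 : Real.log 2 ≤ 1 := by have := Real.log_two_lt_d9; linarith
      have : Real.log m ≤ N + 2 := by nlinarith
      have h7 : (0 : ℝ) ≤ η ^ 2 / 2 := by positivity
      nlinarith [mul_le_mul_of_nonneg_left this h7]
    rw [h5]
    calc (η ^ 2 / 2) * Real.exp ((η ^ 2 / 2) * Real.log m)
        ≤ (η ^ 2 / 2) * Real.exp ((η ^ 2 / 2) * N + η ^ 2) := by gcongr
      _ = (η ^ 2 / 2 * Real.exp (η ^ 2)) * Real.exp ((η ^ 2 / 2) * N) := by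
          rw [Real.exp_add]; ring
      _ ≤ (1 / 2) * Real.exp ((η ^ 2 / 2) * N) := by
          gcongr
          have h8 : η ^ 2 ≤ 1 / 16 := by nlinarith
          have h9 : Real.exp (η ^ 2) ≤ Real.exp 1 := Real.exp_le_exp.2 (by linarith)
          have h10 : Real.exp 1 < 2.7182818286 := Real.exp_one_lt_d9
          have h11 : 0 < Real.exp (η ^ 2) := Real.exp_pos (η ^ 2)
          have h12 : 0 ≤ η ^ 2 := sq_nonneg η
          calc η ^ 2 / 2 * Real.exp (η ^ 2) ≤ (1 / 16) / 2 * 3 := by
                apply mul_le_mul <;> linarith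
            _ ≤ 1 / 2 := by norm_num
      _ ≤ k := by linarith

end Pool.Agent.H28.SmallInt
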