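import Mathlib

namespace Pool.Agent.H28.SmallIntUp

open Finset

/-- a large independent set, by sampling `k` points at random -/
lemma indep {ι : Type} [DecidableEq ι] {n : ℕ} (A : ι → Finset (Fin n)) (c ε : ℝ) (hc : 0 < c)
    (hε : 0 < ε) (V : Finset ι) (hV : V.Nonempty) (hA : ∀ i ∈ V, c * n < (A i).card) (k : ℕ)
    (hk : 2 * (V.card : ℝ) ^ 2 * ε ^ k ≤ c ^ k) :
    ∃ I ⊆ V, (∀ i ∈ I, ∀ j ∈ I, i ≠ j → ¬ ((A i ∩ A j).card : ℝ) < ε * n) ∧
      c ^ k * V.card / 2 ≤ I.card := by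
  classical
  set M : ℝ := (V.card : ℝ) with hM
  have hM1 : 1 ≤ M := by
    rw [hM]; exact_mod_cast hV.card_pos
  have hn : (0 : ℝ) < n := by
    obtain ⟨i, hi⟩ := hV
    have h1 := hA i hi
    have h2 : ((A i).card : ℝ) ≤ n := by
      exact_mod_cast (by simpa using Finset.card_le_univ (A i))
    rcases (Nat.cast_nonneg n : (0 : ℝ) ≤ n).eq_or_lt with h | h
    · rw [← h] at h1 h2
      linarith
    · exact h
  -- classes and bad pairs
  let cl : (Fin k → Fin n) → Finset ι := fun x => V.filter fun i => ∀ t, x t ∈ A i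
  let P : Finset (ι × ι) := (V ×ˢ V).filter fun p => p.1 ≠ p.2 ∧ ((A p.1 ∩ A p.2).card : ℝ) < ε * n
  let bad : (Fin k → Fin n) → Finset (ι × ι) := fun x => P.filter fun p => ∀ t, x t ∈ A p.1 ∩ A p.2
  have hcount : ∀ B : Finset (Fin n), (univ.filter fun x : Fin k → Fin n => ∀ t, x t ∈ B).card =
      B.card ^ k := by
    intro B
    have : (univ.filter fun x : Fin k → Fin n => ∀ t, x t ∈ B) = Fintype.piFinset fun _ => B := by
      ext x; simp [Fintype.mem_piFinset]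
    rw [this, Fintype.card_piFinset_const]
  have hcl : ∑ x, ((cl x).card : ℝ) = ∑ i ∈ V, ((A i).card : ℝ) ^ k := by
    have : ∀ x, ((cl x).card : ℝ) = ∑ i ∈ V, if ∀ t, x t ∈ A i then (1 : ℝ) else 0 := by
      intro x
      simp only [cl]
      rw [Finset.card_filter]; push_cast; rfl
    simp_rw [this]
    rw [Finset.sum_comm]
    apply Finset.sum_congr rfl
    intro i _
    rw [← Nat.cast_pow, ← hcount, Finset.card_filter]
    push_cast; rfl
  have hbad : ∑ x, ((bad x).card : ℝ) = ∑ p ∈ P, ((A p.1 ∩ A p.2).card : ℝ) ^ k := by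
    have : ∀ x, ((bad x).card : ℝ) = ∑ p ∈ P, if ∀ t, x t ∈ A p.1 ∩ A p.2 then (1 : ℝ) else 0 := by
      intro x
      simp only [bad]
      rw [Finset.card_filter]; push_cast; rfl
    simp_rw [this]
    rw [Finset.sum_comm]
    apply Finset.sum_congr rfl
    intro p _
    rw [← Nat.cast_pow, ← hcount, Finset.card_filter]
    push_cast; rfl
  have hcl2 : M * (c * n) ^ k ≤ ∑ x, ((cl x).card : ℝ) := by
    rw [hcl]
    calc M * (c * n) ^ k = ∑ i ∈ V, (c * n) ^ k := by simp [hM]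
      _ ≤ _ := Finset.sum_le_sum fun i hi => by
          have := (hA i hi).le
          gcongr
  have hbad2 : ∑ x, ((bad x).card : ℝ) ≤ M ^ 2 * (ε * n) ^ k := by
    rw [hbad]
    calc ∑ p ∈ P, ((A p.1 ∩ A p.2).card : ℝ) ^ k ≤ ∑ p ∈ P, (ε * n) ^ k := by
          apply Finset.sum_le_sum
          intro p hp
          have := (Finset.mem_filter.1 hp).2.2.le
          gcongr
      _ = P.card * (ε * n) ^ k := by simp
      _ ≤ M ^ 2 * (ε * n) ^ k := by
          gcongr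
          have : P.card ≤ V.card * V.card := by
            rw [← Finset.card_product]
            exact Finset.card_filter_le _ _
          rw [hM]
          have h2 : (P.card : ℝ) ≤ (V.card * V.card : ℕ) := by exact_mod_cast this
          rw [sq]
          push_cast at h2
          exact h2
  -- averaging
  have havg : ∃ x : Fin k → Fin n, M * c ^ k / 2 ≤ ((cl x).card : ℝ) - M * ((bad x).card : ℝ) := by
    by_contra hcon
    push Not at hcon
    have : Nonempty (Fin n) := ⟨⟨0, by exact_mod_cast hn⟩⟩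
    have h1 : ∑ x : Fin k → Fin n, (((cl x).card : ℝ) - M * ((bad x).card : ℝ)) <
        ∑ x : Fin k → Fin n, M * c ^ k / 2 :=
      Finset.sum_lt_sum_of_nonempty Finset.univ_nonempty fun x _ => hcon x
    rw [Finset.sum_sub_distrib, ← Finset.mul_sum] at h1
    have h2 : ∑ x : Fin k → Fin n, M * c ^ k / 2 = (n : ℝ) ^ k * (M * c ^ k / 2) := by
      simp
    rw [h2] at h1
    have h3 : M * ∑ x, ((bad x).card : ℝ) ≤ M * (c * n) ^ k / 2 := by
      calc M * ∑ x, ((bad x).card : ℝ) ≤ M * (M ^ 2 * (ε * n) ^ k) := by gcongr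
        _ = M * (n : ℝ) ^ k * (2 * M ^ 2 * ε ^ k) / 2 := by rw [mul_pow]; ring
        _ ≤ M * (n : ℝ) ^ k * c ^ k / 2 := by gcongr
        _ = M * (c * n) ^ k / 2 := by rw [mul_pow]; ring
    have h4 : (n : ℝ) ^ k * (M * c ^ k / 2) = M * (c * n) ^ k / 2 := by rw [mul_pow]; ring
    linarith
  obtain ⟨x, hx⟩ := havg
  have hpos : 0 < M * c ^ k / 2 := by positivity
  have hbad0 : bad x = ∅ := by
    by_contra hne
    have h1 : 1 ≤ (bad x).card := Finset.card_pos.2 (Finset.nonempty_iff_ne_empty.2 hne)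
    have h2 : (1 : ℝ) ≤ (bad x).card := by exact_mod_cast h1
    have h3 : ((cl x).card : ℝ) ≤ M := by
      rw [hM]; exact_mod_cast Finset.card_filter_le _ _
    nlinarith
  refine ⟨cl x, Finset.filter_subset _ _, ?_, ?_⟩
  · intro i hi j hj hij hlt
    have : (i, j) ∈ bad x := by
      simp only [bad, P, Finset.mem_filter, Finset.mem_product, Finset.mem_inter]
      obtain ⟨hiV, hi2⟩ := Finset.mem_filter.1 hi
      obtain ⟨hjV, hj2⟩ := Finset.mem_filter.1 hj
      exact ⟨⟨⟨hiV, hjV⟩, hij, hlt⟩, fun t => ⟨hi2 t, hj2 t⟩⟩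
    rw [hbad0] at this
    simp at this
  · rw [hbad0] at hx
    simp at hx
    linarith

/-- the choice of the number of sample points -/
lemma choose_k (c δ : ℝ) (hc : 0 < c) (hc1 : c < 1) (hδ : 0 < δ) (M : ℝ) (hM : 1 ≤ M) :
    ∃ k : ℕ, 2 * M ^ 2 * (c ^ (1 + 2 / δ)) ^ k ≤ c ^ k ∧ c * (2 * M ^ 2) ^ (-(δ / 2)) ≤ c ^ k := by
  set L : ℝ := Real.log (2 * M ^ 2) with hL
  have hM2 : 1 ≤ 2 * M ^ 2 := by nlinarith
  have hM2' : 0 < 2 * M ^ 2 := by linarith
  have hL0 : 0 ≤ L := Real.log_nonneg hM2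
  have hlc : 0 < - Real.log c := by
    have := Real.log_neg hc hc1
    linarith
  set ρ : ℝ := (2 / δ) * (- Real.log c) with hρ
  have hρ0 : 0 < ρ := by positivity
  refine ⟨⌈L / ρ⌉₊, ?_, ?_⟩
  · have h1 : L / ρ ≤ (⌈L / ρ⌉₊ : ℝ) := Nat.le_ceil _
    rw [div_le_iff₀ hρ0] at h1
    have h2 : 2 * M ^ 2 ≤ Real.exp ((⌈L / ρ⌉₊ : ℝ) * ρ) := by
      rw [← Real.exp_log hM2', ← hL]
      exact Real.exp_le_exp.2 h1
    have h3 : (c ^ (1 + 2 / δ)) = c * Real.exp (-ρ) := by
      rw [Real.rpow_add hc, Real.rpow_one, Real.rpow_def_of_pos hc, hρ]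
      ring_nf
    rw [h3, mul_pow, ← Real.exp_nat_mul]
    calc 2 * M ^ 2 * (c ^ ⌈L / ρ⌉₊ * Real.exp (⌈L / ρ⌉₊ * -ρ))
        ≤ Real.exp ((⌈L / ρ⌉₊ : ℝ) * ρ) * (c ^ ⌈L / ρ⌉₊ * Real.exp (⌈L / ρ⌉₊ * -ρ)) := by
          gcongr
      _ = c ^ ⌈L / ρ⌉₊ * (Real.exp ((⌈L / ρ⌉₊ : ℝ) * ρ) * Real.exp (⌈L / ρ⌉₊ * -ρ)) := by ring
      _ = c ^ ⌈L / ρ⌉₊ := by rw [← Real.exp_add]; simp
  · have h1 : (⌈L / ρ⌉₊ : ℝ) < L / ρ + 1 := Nat.ceil_lt_add_one (by positivity)
    have h2 : c ^ ⌈L / ρ⌉₊ = Real.exp (Real.log c * ⌈L / ρ⌉₊) := by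
      rw [← Real.rpow_natCast, Real.rpow_def_of_pos hc]
    have h3 : c * (2 * M ^ 2) ^ (-(δ / 2)) = Real.exp (Real.log c + L * (-(δ / 2))) := by
      rw [Real.exp_add, Real.exp_log hc, Real.rpow_def_of_pos hM2', ← hL]
    rw [h2, h3]
    apply Real.exp_le_exp.2
    have h4 : Real.log c * (L / ρ + 1) = Real.log c + L * (-(δ / 2)) := by
      have : Real.log c ≠ 0 := by linarith
      rw [hρ]
      field_simp
      ring
    rw [← h4]
    nlinarith

lemma colour_step {m n : ℕ} (A : Fin m → Finset (Fin n)) (c δ : ℝ) (hc : 0 < c) (hc1 : c < 1)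
    (hδ : 0 < δ) (hδ1 : δ ≤ 1) (hA : ∀ i, c * n < (A i).card) :
    ∀ (s : ℕ) (V : Finset (Fin m)), V.card = s →
      ∃ K : ℕ, (K : ℝ) ≤ 4 / (δ * c) * (V.card : ℝ) ^ δ ∧ ∃ f : Fin m → ℕ, (∀ i ∈ V, f i < K) ∧
        ∀ i ∈ V, ∀ j ∈ V, i ≠ j → ((A i ∩ A j).card : ℝ) < c ^ (1 + 2 / δ) * n → f i ≠ f j := by
  intro s
  induction s using Nat.strong_induction_on with
  | _ s ih =>
  intro V hVs
  rcases V.eq_empty_or_nonempty with rfl | hV
  · refine ⟨0, ?_, fun _ => 0, by simp, by simp⟩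
    simp
    positivity
  · have hM1 : (1 : ℝ) ≤ V.card := by exact_mod_cast hV.card_pos
    obtain ⟨k, hk1, hk2⟩ := choose_k c δ hc hc1 hδ (V.card : ℝ) hM1
    obtain ⟨I, hIV, hI, hIc⟩ := indep A c (c ^ (1 + 2 / δ)) hc (by positivity) V hV
      (fun i _ => hA i) k hk1
    set M : ℝ := (V.card : ℝ) with hM
    have hMpos : 0 < M := by linarith
    -- size of I
    have hI2 : c / 4 * M ^ (1 - δ) ≤ I.card := by
      refine le_trans ?_ hIc
      have h1 : (2 * M ^ 2) ^ (-(δ / 2)) = 2 ^ (-(δ / 2)) * M ^ (-δ) := by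
        rw [Real.mul_rpow (by norm_num) (by positivity), ← Real.rpow_natCast, ← Real.rpow_mul hMpos.le]
        congr 2
        push_cast
        ring
      have h2 : (1 : ℝ) / 2 ≤ 2 ^ (-(δ / 2)) := by
        have : (1 : ℝ) / 2 = 2 ^ (-1 : ℝ) := by rw [Real.rpow_neg_one]; norm_num
        rw [this]
        apply Real.rpow_le_rpow_of_exponent_le (by norm_num) (by linarith)
      have h3 : c * (1 / 2 * M ^ (-δ)) ≤ c ^ k := by
        refine le_trans ?_ hk2
        rw [h1]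
        gcongr
      have h4 : M ^ (1 - δ) = M ^ (-δ) * M := by
        rw [sub_eq_add_neg, add_comm, Real.rpow_add hMpos, Real.rpow_one]
      rw [h4]
      calc c / 4 * (M ^ (-δ) * M) = c * (1 / 2 * M ^ (-δ)) * M / 2 := by ring
        _ ≤ c ^ k * M / 2 := by gcongr
    have hIpos : (0 : ℝ) < I.card := lt_of_lt_of_le (by positivity) hI2
    have hIpos' : 0 < I.card := by exact_mod_cast hIpos
    have hIle : I.card ≤ V.card := Finset.card_le_card hIV
    have hIle' : (I.card : ℝ) ≤ M := by rw [hM]; exact_mod_cast hIle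
    have hcard : (V \ I).card = V.card - I.card := Finset.card_sdiff_of_subset hIV
    obtain ⟨K, hK, f, hf1, hf2⟩ := ih (V \ I).card (by omega) (V \ I) rfl
    have hcard' : ((V \ I).card : ℝ) = M - I.card := by
      rw [hcard, Nat.cast_sub hIle]
    refine ⟨K + 1, ?_, fun i => if i ∈ I then K else f i, ?_, ?_⟩
    · rw [hcard'] at hK
      push_cast
      have h1 : (M - I.card) ^ δ ≤ M ^ δ * (1 - δ * (I.card / M)) := by
        have h2 : M - I.card = M * (1 + (-(I.card / M))) := by field_simp; ring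
        have h3 : (I.card : ℝ) / M ≤ 1 := by rw [div_le_one hMpos]; exact hIle'
        rw [h2, Real.mul_rpow hMpos.le (by linarith)]
        have h4 := rpow_one_add_le_one_add_mul_self (s := -((I.card : ℝ) / M)) (p := δ)
          (by linarith) hδ.le hδ1
        have h5 : 1 + δ * -((I.card : ℝ) / M) = 1 - δ * (I.card / M) := by ring
        rw [h5] at h4
        gcongr
      have h6 : M ^ δ * (δ * (I.card / M)) = δ * (M ^ (δ - 1) * I.card) := by
        rw [Real.rpow_sub hMpos, Real.rpow_one]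
        field_simp
      have h7 : c / 4 ≤ M ^ (δ - 1) * I.card := by
        calc c / 4 = c / 4 * (M ^ (δ - 1) * M ^ (1 - δ)) := by
              rw [← Real.rpow_add hMpos]; simp
          _ = M ^ (δ - 1) * (c / 4 * M ^ (1 - δ)) := by ring
          _ ≤ M ^ (δ - 1) * I.card := by gcongr
      have h8 : 4 / (δ * c) * (M - I.card) ^ δ ≤ 4 / (δ * c) * M ^ δ - 1 := by
        calc 4 / (δ * c) * (M - I.card) ^ δ ≤ 4 / (δ * c) * (M ^ δ * (1 - δ * (I.card / M))) := by
              gcongr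
          _ = 4 / (δ * c) * M ^ δ - 4 / (δ * c) * (δ * (M ^ (δ - 1) * I.card)) := by
              rw [← h6]; ring
          _ ≤ 4 / (δ * c) * M ^ δ - 4 / (δ * c) * (δ * (c / 4)) := by gcongr
          _ = 4 / (δ * c) * M ^ δ - 1 := by field_simp
      linarith
    · intro i hi
      by_cases hiI : i ∈ I
      · simp [hiI]
      · simp only [hiI, if_false]
        have := hf1 i (by simp [hi, hiI])
        omega
    · intro i hi j hj hij hlt
      by_cases hiI : i ∈ I <;> by_cases hjI : j ∈ I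
      · exact absurd hlt (hI i hiI j hjI hij)
      · simp only [hiI, hjI, if_true, if_false]
        have := hf1 j (by simp [hj, hjI])
        omega
      · simp only [hiI, hjI, if_true, if_false]
        have := hf1 i (by simp [hi, hiI])
        omega
      · simp only [hiI, hjI, if_false]
        exact hf2 i (by simp [hi, hiI]) j (by simp [hj, hjI]) hij hlt

theorem upper (c δ : ℝ) (hc : 0 < c) (hδ : 0 < δ) :
    ∃ ε : ℝ, 0 < ε ∧ ∃ C : ℝ, 0 < C ∧ ∀ m : ℕ, 1 ≤ m → ∀ n : ℕ, ∀ A : Fin m → Finset (Fin n),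
      (∀ k, c * n < (A k).card) →
        ∃ K : ℕ, (K : ℝ) ≤ C * (m : ℝ) ^ δ ∧ ∃ f : Fin m → Fin K,
          ∀ i j, i ≠ j → ((A i ∩ A j).card : ℝ) < ε * n → f i ≠ f j := by
  set c' := min c (1 / 2) with hc'
  have hc'0 : 0 < c' := lt_min hc (by norm_num)
  have hc'1 : c' < 1 := lt_of_le_of_lt (min_le_right _ _) (by norm_num)
  have hc'2 : c' ≤ c := min_le_left _ _
  set δ' := min δ 1 with hδ'
  have hδ'0 : 0 < δ' := lt_min hδ (by norm_num)
  have hδ'1 : δ' ≤ 1 := min_le_right _ _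
  have hδ'2 : δ' ≤ δ := min_le_left _ _
  refine ⟨c' ^ (1 + 2 / δ'), by positivity, 4 / (δ' * c'), by positivity, ?_⟩
  intro m hm n A hA
  have hA' : ∀ i, c' * n < (A i).card := fun i => lt_of_le_of_lt
    (mul_le_mul_of_nonneg_right hc'2 (Nat.cast_nonneg n)) (hA i)
  obtain ⟨K, hK, f, hf1, hf2⟩ := colour_step A c' δ' hc'0 hc'1 hδ'0 hδ'1 hA' m univ (by simp)
  have hm' : (1 : ℝ) ≤ m := by exact_mod_cast hm
  refine ⟨K, ?_, fun i => ⟨f i, hf1 i (mem_univ _)⟩, ?_⟩
  · refine hK.trans ?_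
    rw [Finset.card_univ, Fintype.card_fin]
    have : (m : ℝ) ^ δ' ≤ (m : ℝ) ^ δ := Real.rpow_le_rpow_of_exponent_le hm' hδ'2
    gcongr
  · intro i j hij hlt h
    exact hf2 i (mem_univ _) j (mem_univ _) hij hlt (by simpa using h)

end Pool.Agent.H28.SmallIntUp
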